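import Pool.Agent.Helper1K1.PK.B2

/-!
# Chords and a harmonic sum
-/

set_option autoImplicit false

open Metric Filter Topology Set Real

namespace Pool.Agent.Helper1K1.PK

lemma chord (a b : ℝ) : ‖circleMap 0 1 a - circleMap 0 1 b‖ = 2 * |sin ((a - b) / 2)| := by
  have h1 : circleMap 0 1 a - circleMap 0 1 b =
      circleMap 0 1 b * (Complex.exp (Complex.I * ((a - b : ℝ) : ℂ)) - 1) := by
    rw [circleMap_zero, circleMap_zero]
    simp only [Complex.ofReal_one, one_mul]
    rw [mul_sub, mul_one, ← Complex.exp_add]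
    congr 2
    push_cast
    ring
  rw [h1, norm_mul, norm_circleMap_zero, abs_one, one_mul, Complex.norm_exp_I_mul_ofReal_sub_one,
    Real.norm_eq_abs, abs_mul, abs_two]

lemma chord_le (a b : ℝ) : ‖circleMap 0 1 a - circleMap 0 1 b‖ ≤ |a - b| := by
  rw [chord]
  have h1 : |sin ((a - b) / 2)| ≤ |(a - b) / 2| := Real.abs_sin_le_abs
  rw [abs_div, abs_two] at h1
  linarith

lemma chord_ge {a b : ℝ} (h : |a - b| ≤ 3) : |a - b| / 2 ≤ ‖circleMap 0 1 a - circleMap 0 1 b‖ := by
  rw [chord]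
  have h0 : 0 ≤ |a - b| := abs_nonneg _
  have h1 : |sin ((a - b) / 2)| = sin (|a - b| / 2) := by
    rcases le_total 0 (a - b) with h2 | h2
    · rw [abs_of_nonneg h2] at h ⊢
      rw [abs_of_nonneg]
      exact sin_nonneg_of_nonneg_of_le_pi (by linarith) (by linarith [pi_gt_three])
    · rw [abs_of_nonpos h2] at h ⊢
      have : (a - b) / 2 = -(-(a - b) / 2) := by ring
      rw [this, sin_neg, abs_neg, abs_of_nonneg]
      exact sin_nonneg_of_nonneg_of_le_pi (by linarith) (by linarith [pi_gt_three])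
  rw [h1]
  have h2 : 2 / π * (|a - b| / 2) ≤ sin (|a - b| / 2) :=
    mul_le_sin (by linarith) (by linarith [pi_gt_three])
  have h3 : (1 : ℝ) / 2 ≤ 2 / π := by
    rw [div_le_div_iff₀ (by norm_num) pi_pos]
    linarith [pi_lt_four]
  nlinarith [mul_le_mul_of_nonneg_right h3 (by linarith : (0 : ℝ) ≤ |a - b| / 2)]

lemma harm (N : ℕ) : ∑ k ∈ Finset.range N, 1 / ((k : ℝ) + 1) ≤ 1 + Real.log N := by
  have h1 := harmonic_le_one_add_log N
  rw [harmonic] at h1
  push_cast at h1
  refine le_trans (le_of_eq ?_) h1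
  exact Finset.sum_congr rfl fun k _ => by rw [one_div]

lemma near_sum {N i₀ : ℕ} (h : i₀ < N) :
    ∑ i ∈ (Finset.range N).erase i₀, 1 / |(i : ℝ) - i₀| ≤ 2 * (1 + Real.log N) := by
  have hsplit : (Finset.range N).erase i₀ = Finset.range i₀ ∪ Finset.Ico (i₀ + 1) N := by
    ext i
    simp only [Finset.mem_erase, Finset.mem_range, Finset.mem_union, Finset.mem_Ico]
    omega
  have hdisj : Disjoint (Finset.range i₀) (Finset.Ico (i₀ + 1) N) := by
    rw [Finset.disjoint_left]
    intro i h1 h2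
    rw [Finset.mem_range] at h1
    rw [Finset.mem_Ico] at h2
    omega
  have hmono : ∀ M ≤ N, ∑ k ∈ Finset.range M, 1 / ((k : ℝ) + 1) ≤
      ∑ k ∈ Finset.range N, 1 / ((k : ℝ) + 1) := fun M hM =>
    Finset.sum_le_sum_of_subset_of_nonneg (Finset.range_mono hM) fun _ _ _ => by positivity
  have h1 : ∑ i ∈ Finset.range i₀, 1 / |(i : ℝ) - i₀| = ∑ k ∈ Finset.range i₀, 1 / ((k : ℝ) + 1) := by
    rw [← Finset.sum_range_reflect]
    refine Finset.sum_congr rfl fun i hi => ?_
    rw [Finset.mem_range] at hi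
    have h2 : ((i₀ - 1 - i : ℕ) : ℝ) = (i₀ : ℝ) - 1 - i := by
      rw [Nat.cast_sub (by omega), Nat.cast_sub (by omega)]
      push_cast
      ring
    rw [h2]
    congr 1
    have : (i₀ : ℝ) - 1 - i - i₀ = -((i : ℝ) + 1) := by ring
    rw [this, abs_neg, abs_of_pos (by positivity)]
  have h2 : ∑ i ∈ Finset.Ico (i₀ + 1) N, 1 / |(i : ℝ) - i₀| =
      ∑ k ∈ Finset.range (N - (i₀ + 1)), 1 / ((k : ℝ) + 1) := by
    rw [Finset.sum_Ico_eq_sum_range]
    refine Finset.sum_congr rfl fun i hi => ?_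
    congr 1
    push_cast
    have : (i₀ : ℝ) + 1 + i - i₀ = (i : ℝ) + 1 := by ring
    rw [this, abs_of_pos (by positivity)]
  rw [hsplit, Finset.sum_union hdisj, h1, h2]
  have h3 := hmono i₀ h.le
  have h4 := hmono (N - (i₀ + 1)) (by omega)
  have h5 := harm N
  linarith

end Pool.Agent.Helper1K1.PK
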