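import Pool.Agent.Helper1K1.PK.A1

/-!
# The set and the function
-/

set_option autoImplicit false

open Metric Filter Topology Set Real

namespace Pool.Agent.Helper1K1.PK

/-- The scales. -/
noncomputable def rr (n : ℕ) : ℝ := (1 / 16) ^ (n + 1)

/-- The masses. -/
noncomputable def mm (α : ℝ) (n : ℕ) : ℝ := (rr n) ^ (1 / α - 1)

/-- The denominators of the gaps. -/
noncomputable def LL (α K : ℝ) (n : ℕ) : ℝ := K * ((n : ℝ) + 1) ^ (1 / α)

/-- The numbers of points. -/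
noncomputable def NN (α K : ℝ) (n : ℕ) : ℕ := ⌊1 / (mm α n * LL α K n)⌋₊

/-- The angles. -/
noncomputable def th (α K : ℝ) (n i : ℕ) : ℝ := rr n * (1 + i / NN α K n)

/-- The points. -/
noncomputable def ze (α K : ℝ) (n i : ℕ) : ℂ := circleMap 0 1 (th α K n i)

/-- The set. -/
def EE (α K : ℝ) : Set ℂ := {z | z = 1 ∨ ∃ n i, i < NN α K n ∧ z = ze α K n i}

/-- The linear functions with zeros at the points. -/
noncomputable def ww (α K : ℝ) (n i : ℕ) (z : ℂ) : ℂ := 1 - (starRingEnd ℂ) (ze α K n i) * z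

noncomputable def ta (α K : ℝ) (n : ℕ) (z : ℂ) : ℝ :=
  ∑ i ∈ Finset.range (NN α K n), mm α n / ‖ww α K n i z‖

/-- One term. -/
noncomputable def ph (α K : ℝ) (n i : ℕ) (z : ℂ) : ℂ :=
  (mm α n : ℂ) * (1 / ww α K n i z + 1 / (ww α K n i z + ((mm α n * rr n : ℝ) : ℂ)))

noncomputable def HH (α K : ℝ) (n : ℕ) (z : ℂ) : ℂ :=
  ∑ i ∈ Finset.range (NN α K n), ph α K n i z

/-- The function with positive real part. -/
noncomputable def hh (α K : ℝ) (z : ℂ) : ℂ := 1 / (1 - z) + ∑' n, HH α K n z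

noncomputable def SS (α K : ℝ) (z : ℂ) : ℝ := 1 / ‖1 - z‖ + ∑' n, ta α K n z

lemma rr_pos (n : ℕ) : 0 < rr n := by unfold rr; positivity

lemma rr_le (n : ℕ) : rr n ≤ 1 / 16 := by
  unfold rr
  calc (1 / 16 : ℝ) ^ (n + 1) ≤ (1 / 16) ^ 1 :=
        pow_le_pow_of_le_one (by norm_num) (by norm_num) (by omega)
    _ = 1 / 16 := by norm_num

lemma rr_lt {m n : ℕ} (h : m < n) : rr n ≤ rr m / 16 := by
  unfold rr
  have : (1 / 16 : ℝ) ^ (m + 1) / 16 = (1 / 16) ^ (m + 1 + 1) := by rw [pow_succ (1 / 16 : ℝ) (m + 1)]; ring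
  rw [this]
  exact pow_le_pow_of_le_one (by norm_num) (by norm_num) (by omega)

lemma rr_tendsto : Tendsto rr atTop (𝓝 0) := by
  unfold rr
  exact (tendsto_pow_atTop_nhds_zero_of_lt_one (by norm_num) (by norm_num)).comp
    (tendsto_add_atTop_nat 1)

section

variable {α K : ℝ} (hα : 0 < α) (hα1 : α < 1) (hK : 1 ≤ K)

include hα hα1 in
lemma q_pos : 0 < 1 / α - 1 := by
  rw [sub_pos, lt_div_iff₀ hα]
  linarith

lemma mm_pos (n : ℕ) : 0 < mm α n := Real.rpow_pos_of_pos (rr_pos n) _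

include hα hα1 in
lemma mm_le (n : ℕ) : mm α n ≤ 1 :=
  Real.rpow_le_one (rr_pos n).le (by linarith [rr_le n]) (q_pos hα hα1).le

/-- `ρ = r ^ (1 / α)` -/
lemma rho_eq (n : ℕ) : mm α n * rr n = (rr n) ^ (1 / α) := by
  unfold mm
  conv_lhs => rw [← Real.rpow_one (rr n), ← Real.rpow_mul (rr_pos n).le,
    ← Real.rpow_add (rr_pos n)]
  congr 1
  ring

include hα in
lemma rho_rpow (n : ℕ) : (mm α n * rr n) ^ (-α) = 1 / rr n := by
  rw [rho_eq, ← Real.rpow_mul (rr_pos n).le]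
  have : 1 / α * -α = -1 := by field_simp
  rw [this, Real.rpow_neg_one, one_div]

include hα in
lemma mm_eq (n : ℕ) : mm α n = (mm α n * rr n) ^ (1 - α) := by
  rw [rho_eq, ← Real.rpow_mul (rr_pos n).le]
  unfold mm
  congr 1
  field_simp

include hK in
lemma LL_pos (n : ℕ) : 0 < LL α K n := by
  unfold LL
  have : 0 < K := by linarith
  positivity

include hα hα1 hK in
lemma LL_ge (n : ℕ) : K * ((n : ℝ) + 1) ≤ LL α K n := by
  unfold LL
  refine mul_le_mul_of_nonneg_left ?_ (by linarith)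
  have h1 : (1 : ℝ) ≤ (n : ℝ) + 1 := by linarith [Nat.cast_nonneg (α := ℝ) n]
  conv_lhs => rw [← Real.rpow_one ((n : ℝ) + 1)]
  exact Real.rpow_le_rpow_of_exponent_le h1 (by linarith [q_pos hα hα1])

include hK in
lemma NN_mul (n : ℕ) : (NN α K n : ℝ) * mm α n ≤ 1 / LL α K n := by
  have h1 : (NN α K n : ℝ) ≤ 1 / (mm α n * LL α K n) :=
    Nat.floor_le (by have := mm_pos (α := α) n; have := LL_pos (α := α) hK n; positivity)
  calc (NN α K n : ℝ) * mm α n ≤ 1 / (mm α n * LL α K n) * mm α n :=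
        mul_le_mul_of_nonneg_right h1 (mm_pos n).le
    _ = 1 / LL α K n := by
        have := (mm_pos (α := α) n).ne'
        have := (LL_pos (α := α) hK n).ne'
        field_simp

/-- The sum of the series. -/
noncomputable def ZZ (α : ℝ) : ℝ := ∑' n : ℕ, 1 / ((n : ℝ) + 1) ^ (1 / α)

include hα hα1 in
lemma ZZ_summable : Summable fun n : ℕ => 1 / ((n : ℝ) + 1) ^ (1 / α) := by
  have h1 : 1 < 1 / α := by linarith [q_pos hα hα1]
  have := Real.summable_one_div_nat_add_rpow 1 (1 / α)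
  refine ((this.2 h1)).congr fun n => ?_
  rw [abs_of_pos (by positivity)]

lemma ZZ_nonneg : 0 ≤ ZZ α := tsum_nonneg fun n => by positivity

include hα hα1 in
lemma LLinv_summable : Summable fun n : ℕ => 1 / LL α K n := by
  refine ((ZZ_summable hα hα1).mul_left (1 / K)).congr fun n => ?_
  unfold LL
  rw [one_div_mul_one_div]

lemma LLinv_tsum : ∑' n : ℕ, 1 / LL α K n = ZZ α / K := by
  unfold ZZ LL
  rw [← tsum_div_const]
  refine tsum_congr fun n => ?_
  rw [div_div, mul_comm]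

lemma ze_norm (n i : ℕ) : ‖ze α K n i‖ = 1 := by
  unfold ze
  rw [norm_circleMap_zero, abs_one]

lemma ww_norm (n i : ℕ) (z : ℂ) : ‖ww α K n i z‖ = ‖z - ze α K n i‖ := by
  unfold ww
  have h1 : (starRingEnd ℂ) (ze α K n i) * ze α K n i = 1 := by
    rw [mul_comm, Complex.mul_conj, Complex.normSq_eq_norm_sq, ze_norm]
    simp
  calc ‖1 - (starRingEnd ℂ) (ze α K n i) * z‖ =
        ‖(starRingEnd ℂ) (ze α K n i) * (ze α K n i - z)‖ := by rw [mul_sub, h1]
    _ = ‖z - ze α K n i‖ := by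
        rw [norm_mul, RCLike.norm_conj, ze_norm, one_mul, norm_sub_rev]

lemma re_nonneg_aux {ζ z : ℂ} (hζ : ‖ζ‖ = 1) (hz : ‖z‖ ≤ 1) :
    0 ≤ (1 - (starRingEnd ℂ) ζ * z).re := by
  rw [Complex.sub_re, Complex.one_re]
  have h1 : ((starRingEnd ℂ) ζ * z).re ≤ ‖(starRingEnd ℂ) ζ * z‖ := Complex.re_le_norm _
  rw [norm_mul, RCLike.norm_conj, hζ, one_mul] at h1
  linarith

lemma ww_re (n i : ℕ) {z : ℂ} (hz : ‖z‖ ≤ 1) : 0 ≤ (ww α K n i z).re :=
  re_nonneg_aux (ze_norm n i) hz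

lemma EE_mem_one : (1 : ℂ) ∈ EE α K := Or.inl rfl

lemma EE_mem {n i : ℕ} (h : i < NN α K n) : ze α K n i ∈ EE α K := Or.inr ⟨n, i, h, rfl⟩

lemma EE_sub : EE α K ⊆ sphere 0 1 := by
  rintro z (rfl | ⟨n, i, -, rfl⟩)
  · simp
  · simp [ze_norm]

lemma th_bounds {n i : ℕ} (h : i < NN α K n) : rr n ≤ th α K n i ∧ th α K n i ≤ 2 * rr n := by
  unfold th
  have hN : (0 : ℝ) < NN α K n := by exact_mod_cast (by omega : 0 < NN α K n)
  have h1 : (i : ℝ) / NN α K n ≤ 1 := by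
    rw [div_le_one hN]
    exact_mod_cast h.le
  have h2 : 0 ≤ (i : ℝ) / NN α K n := by positivity
  have := rr_pos n
  constructor <;> nlinarith

lemma one_eq : (1 : ℂ) = circleMap 0 1 0 := by simp [circleMap_zero]

lemma ze_one {n i : ℕ} (h : i < NN α K n) :
    rr n / 2 ≤ ‖1 - ze α K n i‖ ∧ ‖1 - ze α K n i‖ ≤ 2 * rr n := by
  obtain ⟨h1, h2⟩ := th_bounds h
  have h3 := rr_pos n
  have h4 := rr_le n
  have e : |0 - th α K n i| = th α K n i := by
    rw [zero_sub, abs_neg, abs_of_nonneg (by linarith)]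
  rw [one_eq]
  unfold ze
  constructor
  · have := chord_ge (a := 0) (b := th α K n i) (by rw [e]; linarith)
    rw [e] at this
    linarith
  · have := chord_le 0 (th α K n i)
    rw [e] at this
    linarith

lemma ze_dist {n i j : ℕ} (hi : i < NN α K n) (hj : j < NN α K n) :
    rr n / NN α K n * |(i : ℝ) - j| / 2 ≤ ‖ze α K n i - ze α K n j‖ := by
  obtain ⟨h1, h2⟩ := th_bounds hi
  obtain ⟨h5, h6⟩ := th_bounds hj
  have h3 := rr_pos n
  have h4 := rr_le n
  have hN : (0 : ℝ) < NN α K n := by exact_mod_cast (by omega : 0 < NN α K n)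
  have h7 := chord_ge (a := th α K n i) (b := th α K n j) (by
    rw [abs_le]
    constructor <;> linarith)
  unfold ze
  refine le_trans (le_of_eq ?_) h7
  have e : th α K n i - th α K n j = rr n / NN α K n * ((i : ℝ) - j) := by
    unfold th
    field_simp
    ring
  rw [e, abs_mul, abs_of_pos (div_pos h3 hN)]

lemma EE_compact : IsCompact (EE α K) := by
  have hsub : EE α K = insert 1 (range fun j : Σ n : ℕ, Fin (NN α K n) => ze α K j.1 j.2) := by
    ext z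
    constructor
    · rintro (rfl | ⟨n, i, h, rfl⟩)
      · exact mem_insert _ _
      · exact mem_insert_of_mem _ ⟨⟨n, ⟨i, h⟩⟩, rfl⟩
    · rintro (rfl | ⟨⟨n, i⟩, rfl⟩)
      · exact EE_mem_one
      · exact EE_mem i.2
  rw [hsub]
  refine Filter.Tendsto.isCompact_insert_range_of_cofinite ?_
  rw [Metric.tendsto_nhds]
  intro ε hε
  obtain ⟨n₀, hn₀⟩ := (Metric.tendsto_atTop.1 rr_tendsto) (ε / 2) (by positivity)
  rw [Filter.eventually_cofinite]
  have hfin : (⋃ n ∈ Finset.range n₀, (fun i : Fin (NN α K n) => (⟨n, i⟩ : Σ n : ℕ, Fin (NN α K n))) ''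
      Set.univ).Finite := by
    refine Set.Finite.biUnion (Finset.finite_toSet _) fun n _ => ?_
    exact (Set.toFinite _)
  refine hfin.subset ?_
  rintro ⟨n, i⟩ h
  simp only [mem_ofPred_eq, not_lt] at h
  simp only [mem_iUnion]
  refine ⟨n, ?_, ⟨i, mem_univ _, rfl⟩⟩
  rw [Finset.mem_range]
  by_contra hn
  have h1 := hn₀ n (by omega)
  rw [Real.dist_eq, sub_zero, abs_of_pos (rr_pos n)] at h1
  have h2 := (ze_one i.2).2
  rw [dist_eq_norm, norm_sub_rev] at h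
  linarith

lemma EE_nonempty : (EE α K).Nonempty := ⟨1, EE_mem_one⟩

lemma infDist_pos {z : ℂ} (hz : z ∉ EE α K) : 0 < infDist z (EE α K) :=
  (EE_compact.isClosed.notMem_iff_infDist_pos EE_nonempty).1 hz

lemma infDist_le_w {n i : ℕ} (h : i < NN α K n) (z : ℂ) :
    infDist z (EE α K) ≤ ‖ww α K n i z‖ := by
  rw [ww_norm, ← dist_eq_norm]
  exact infDist_le_dist_of_mem (EE_mem h)

lemma infDist_le_one (z : ℂ) : infDist z (EE α K) ≤ ‖1 - z‖ := by
  rw [← dist_eq_norm, dist_comm]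
  exact infDist_le_dist_of_mem EE_mem_one

lemma ta_nonneg (n : ℕ) (z : ℂ) : 0 ≤ ta α K n z :=
  Finset.sum_nonneg fun _ _ => div_nonneg (mm_pos n).le (norm_nonneg _)

include hK in
/-- A bound for one block. -/
lemma ta_le {n : ℕ} {z : ℂ} {d : ℝ} (hd : 0 < d)
    (h : ∀ i < NN α K n, d ≤ ‖ww α K n i z‖) : ta α K n z ≤ 1 / LL α K n / d := by
  unfold ta
  calc ∑ i ∈ Finset.range (NN α K n), mm α n / ‖ww α K n i z‖
      ≤ ∑ i ∈ Finset.range (NN α K n), mm α n / d := by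
        refine Finset.sum_le_sum fun i hi => ?_
        exact div_le_div_of_nonneg_left (mm_pos n).le hd (h i (Finset.mem_range.1 hi))
    _ = NN α K n * mm α n / d := by rw [Finset.sum_const, Finset.card_range, nsmul_eq_mul]; ring
    _ ≤ 1 / LL α K n / d := div_le_div_of_nonneg_right (NN_mul hK n) hd.le

include hα hα1 hK in
lemma ta_summable {z : ℂ} (hz : z ∉ EE α K) : Summable fun n => ta α K n z := by
  refine Summable.of_nonneg_of_le (fun n => ta_nonneg n z)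
    (fun n => ta_le hK (infDist_pos hz) fun i hi => infDist_le_w hi z) ?_
  exact (LLinv_summable hα hα1).div_const _

lemma ww_ne {n i : ℕ} (h : i < NN α K n) {z : ℂ} (hz : z ∉ EE α K) : ww α K n i z ≠ 0 := by
  rw [← norm_pos_iff]
  exact (infDist_pos hz).trans_le (infDist_le_w h z)

/-- Adding a positive number to a number with nonnegative real part. -/
lemma norm_add_ge {w : ℂ} (hw : 0 ≤ w.re) {ρ : ℝ} (hρ : 0 ≤ ρ) :
    ‖w‖ ≤ ‖w + ρ‖ ∧ ρ ≤ ‖w + ρ‖ := by
  constructor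
  · have h1 : ‖w‖ ^ 2 ≤ ‖w + ρ‖ ^ 2 := by
      rw [Complex.sq_norm, Complex.sq_norm, Complex.normSq_apply, Complex.normSq_apply]
      simp only [Complex.add_re, Complex.ofReal_re, Complex.add_im, Complex.ofReal_im, add_zero]
      nlinarith
    exact (pow_le_pow_iff_left₀ (norm_nonneg _) (norm_nonneg _) two_ne_zero).1 h1
  · have h1 : (w + ρ).re ≤ ‖w + ρ‖ := Complex.re_le_norm _
    simp only [Complex.add_re, Complex.ofReal_re] at h1
    linarith

lemma ph_norm {n i : ℕ} {z : ℂ} (hz : ‖z‖ ≤ 1) (hw : ww α K n i z ≠ 0) :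
    ‖ph α K n i z‖ ≤ 2 * (mm α n / ‖ww α K n i z‖) := by
  unfold ph
  have hρ : 0 ≤ mm α n * rr n := (mul_pos (mm_pos n) (rr_pos n)).le
  obtain ⟨h1, -⟩ := norm_add_ge (ww_re n i hz) hρ
  have hw' : 0 < ‖ww α K n i z‖ := norm_pos_iff.2 hw
  rw [norm_mul, Complex.norm_real, Real.norm_of_nonneg (mm_pos n).le]
  have h2 : ‖1 / ww α K n i z + 1 / (ww α K n i z + ((mm α n * rr n : ℝ) : ℂ))‖ ≤
      1 / ‖ww α K n i z‖ + 1 / ‖ww α K n i z‖ := by
    refine (norm_add_le _ _).trans ?_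
    rw [norm_div, norm_div, norm_one]
    exact add_le_add le_rfl (one_div_le_one_div_of_le hw' h1)
  calc mm α n * ‖1 / ww α K n i z + 1 / (ww α K n i z + ((mm α n * rr n : ℝ) : ℂ))‖
      ≤ mm α n * (1 / ‖ww α K n i z‖ + 1 / ‖ww α K n i z‖) :=
        mul_le_mul_of_nonneg_left h2 (mm_pos n).le
    _ = 2 * (mm α n / ‖ww α K n i z‖) := by ring

lemma re_inv_nonneg {w : ℂ} (hw : 0 ≤ w.re) : 0 ≤ (1 / w).re := by
  rw [one_div, Complex.inv_re]
  exact div_nonneg hw (Complex.normSq_nonneg _)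

lemma ph_re {n i : ℕ} {z : ℂ} (hz : ‖z‖ ≤ 1) :
    mm α n * ((mm α n * rr n) / (‖ww α K n i z‖ + mm α n * rr n) ^ 2) ≤ (ph α K n i z).re := by
  unfold ph
  have hρ : 0 < mm α n * rr n := mul_pos (mm_pos n) (rr_pos n)
  have hre := ww_re (α := α) (K := K) n i hz
  rw [Complex.re_ofReal_mul]
  refine mul_le_mul_of_nonneg_left ?_ (mm_pos n).le
  rw [Complex.add_re]
  have h1 := re_inv_nonneg hre
  have h2 : (mm α n * rr n) / (‖ww α K n i z‖ + mm α n * rr n) ^ 2 ≤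
      (1 / (ww α K n i z + ((mm α n * rr n : ℝ) : ℂ))).re := by
    rw [one_div, Complex.inv_re, Complex.add_re, Complex.ofReal_re, Complex.normSq_eq_norm_sq]
    obtain ⟨-, h3⟩ := norm_add_ge hre hρ.le
    have h4 : ‖ww α K n i z + ((mm α n * rr n : ℝ) : ℂ)‖ ≤ ‖ww α K n i z‖ + mm α n * rr n := by
      refine (norm_add_le _ _).trans ?_
      rw [Complex.norm_real, Real.norm_of_nonneg hρ.le]
    refine div_le_div₀ (by linarith) (by linarith) ?_ ?_
    · exact pow_pos (hρ.trans_le h3) 2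
    · exact pow_le_pow_left₀ (norm_nonneg _) h4 2
  linarith

lemma ph_re_nonneg {n i : ℕ} {z : ℂ} (hz : ‖z‖ ≤ 1) : 0 ≤ (ph α K n i z).re := by
  refine le_trans ?_ (ph_re hz)
  have := mm_pos (α := α) n
  have := rr_pos n
  positivity

lemma HH_re_nonneg (n : ℕ) {z : ℂ} (hz : ‖z‖ ≤ 1) : 0 ≤ (HH α K n z).re := by
  unfold HH
  rw [Complex.re_sum]
  exact Finset.sum_nonneg fun i _ => ph_re_nonneg hz

lemma HH_norm (n : ℕ) {z : ℂ} (hz : ‖z‖ ≤ 1) (hE : z ∉ EE α K) :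
    ‖HH α K n z‖ ≤ 2 * ta α K n z := by
  unfold HH ta
  rw [Finset.mul_sum]
  exact norm_sum_le_of_le _ fun i hi => ph_norm hz (ww_ne (Finset.mem_range.1 hi) hE)

include hα hα1 hK in
lemma HH_summable_norm {z : ℂ} (hz : ‖z‖ ≤ 1) (hE : z ∉ EE α K) :
    Summable fun n => ‖HH α K n z‖ :=
  Summable.of_nonneg_of_le (fun _ => norm_nonneg _) (fun n => HH_norm n hz hE)
    ((ta_summable hα hα1 hK hE).mul_left 2)

include hα hα1 hK in
lemma HH_summable {z : ℂ} (hz : ‖z‖ ≤ 1) (hE : z ∉ EE α K) :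
    Summable fun n => HH α K n z := (HH_summable_norm hα hα1 hK hz hE).of_norm

lemma one_sub_re {z : ℂ} (hz : ‖z‖ ≤ 1) (h1 : z ≠ 1) : 0 < (1 / (1 - z)).re := by
  rw [one_div, Complex.inv_re]
  have h2 : 1 - z ≠ 0 := sub_ne_zero.2 (Ne.symm h1)
  refine div_pos ?_ (Complex.normSq_pos.2 h2)
  rw [Complex.sub_re, Complex.one_re, sub_pos]
  by_contra h3
  push Not at h3
  have h4 : ‖z‖ ^ 2 ≤ 1 := pow_le_one₀ (norm_nonneg _) hz
  rw [Complex.sq_norm, Complex.normSq_apply] at h4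
  have h5 : z.im = 0 := by nlinarith [mul_self_nonneg z.im]
  have h6 : z.re = 1 := by nlinarith [mul_self_nonneg z.im]
  exact h1 (Complex.ext (by simpa using h6) (by simpa using h5))

include hα hα1 hK in
lemma hh_re {z : ℂ} (hz : ‖z‖ ≤ 1) (hE : z ∉ EE α K) (n : ℕ) :
    (HH α K n z).re < (hh α K z).re := by
  have h1 : z ≠ 1 := fun h => hE (Or.inl h)
  unfold hh
  rw [Complex.add_re, Complex.re_tsum (HH_summable hα hα1 hK hz hE)]
  have h2 : Summable fun n => (HH α K n z).re :=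
    (Complex.hasSum_re (HH_summable hα hα1 hK hz hE).hasSum).summable
  have h3 : (HH α K n z).re ≤ ∑' n, (HH α K n z).re :=
    h2.le_tsum n fun j _ => HH_re_nonneg j hz
  linarith [one_sub_re hz h1]

include hα hα1 hK in
lemma hh_re_pos {z : ℂ} (hz : ‖z‖ ≤ 1) (hE : z ∉ EE α K) : 0 < (hh α K z).re :=
  (HH_re_nonneg 0 hz).trans_lt (hh_re hα hα1 hK hz hE 0)

end

end Pool.Agent.Helper1K1.PK
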