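import Pool.Agent.Helper1K1.PK.A2

/-!
# The lower bound for the function
-/

set_option autoImplicit false

open Metric Filter Topology Set Real

namespace Pool.Agent.Helper1K1.PK

section

variable {α K : ℝ} (hα : 0 < α) (hα1 : α < 1) (hK : 1 ≤ K)

lemma far {n i : ℕ} (h : i < NN α K n) {z : ℂ}
    (hf : ¬ (‖1 - z‖ / 4 < rr n ∧ rr n < 4 * ‖1 - z‖)) : ‖1 - z‖ / 2 ≤ ‖ww α K n i z‖ := by
  obtain ⟨h1, h2⟩ := ze_one h
  rw [ww_norm]
  have h3 : ‖1 - ze α K n i‖ ≤ ‖1 - z‖ + ‖z - ze α K n i‖ := norm_sub_le_norm_sub_add_norm_sub _ _ _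
  have h4 : ‖1 - z‖ ≤ ‖1 - ze α K n i‖ + ‖z - ze α K n i‖ := by
    have := norm_sub_le_norm_sub_add_norm_sub (1 : ℂ) (ze α K n i) z
    rwa [norm_sub_rev (ze α K n i) z] at this
  have h5 := norm_nonneg (1 - z)
  by_cases h6 : ‖1 - z‖ / 4 < rr n
  · have h7 : 4 * ‖1 - z‖ ≤ rr n := by
      by_contra h8
      exact hf ⟨h6, not_le.1 h8⟩
    linarith
  · push Not at h6
    linarith

lemma near_unique {m n : ℕ} {δ : ℝ} (hm : δ / 4 < rr m ∧ rr m < 4 * δ)
    (hn : δ / 4 < rr n ∧ rr n < 4 * δ) : m = n := by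
  rcases lt_trichotomy m n with h | h | h
  · have := rr_lt h
    linarith [hm.2, hn.1]
  · exact h
  · have := rr_lt h
    linarith [hn.2, hm.1]

include hα hα1 hK in
lemma log_NN {n : ℕ} (hN : 0 < NN α K n) :
    1 + Real.log (NN α K n) ≤ (1 + 3 * (1 / α - 1)) * ((n : ℝ) + 1) := by
  have hq := q_pos hα hα1
  have h1 : (NN α K n : ℝ) ≤ 1 / (mm α n * LL α K n) :=
    Nat.floor_le (by have := mm_pos (α := α) n; have := LL_pos (α := α) hK n; positivity)
  have hL : 1 ≤ LL α K n := by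
    refine le_trans ?_ (LL_ge hα hα1 hK n)
    have : (0 : ℝ) ≤ n := Nat.cast_nonneg _
    nlinarith
  have hm := mm_pos (α := α) n
  have h2 : (NN α K n : ℝ) ≤ 1 / mm α n := by
    refine h1.trans (one_div_le_one_div_of_le hm ?_)
    nlinarith
  have h3 : Real.log (NN α K n) ≤ Real.log (1 / mm α n) :=
    Real.log_le_log (by exact_mod_cast hN) h2
  have h4 : Real.log (1 / mm α n) = (1 / α - 1) * (((n : ℝ) + 1) * Real.log 16) := by
    have e16 : Real.log (1 / 16) = -Real.log 16 := by rw [one_div, Real.log_inv]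
    rw [Real.log_div one_ne_zero hm.ne', Real.log_one]
    unfold mm
    rw [Real.log_rpow (rr_pos n)]
    unfold rr
    rw [Real.log_pow, e16]
    push_cast
    ring
  have h5 : Real.log 16 ≤ 3 := by
    have : (16 : ℝ) = 2 ^ 4 := by norm_num
    rw [this, Real.log_pow]
    have := Real.log_two_lt_d9
    push_cast
    linarith
  rw [h4] at h3
  have h6 : (1 / α - 1) * (((n : ℝ) + 1) * Real.log 16) ≤ (1 / α - 1) * (((n : ℝ) + 1) * 3) :=
    mul_le_mul_of_nonneg_left (mul_le_mul_of_nonneg_left h5 (by positivity)) hq.le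
  have h7 : (0 : ℝ) ≤ n := Nat.cast_nonneg _
  nlinarith

include hα hα1 hK in
/-- The sum over the block of `z` without the nearest point. -/
lemma block_rest {n i₀ : ℕ} (hi₀ : i₀ < NN α K n) {z : ℂ} (hz1 : 0 < ‖1 - z‖)
    (hmin : ∀ i < NN α K n, ‖ww α K n i₀ z‖ ≤ ‖ww α K n i z‖) (hr : ‖1 - z‖ / 4 < rr n) :
    ∑ i ∈ (Finset.range (NN α K n)).erase i₀, mm α n / ‖ww α K n i z‖ ≤
      32 * (1 + 3 * (1 / α - 1)) / K / ‖1 - z‖ := by
  have hN : 0 < NN α K n := by omega
  have hNr : (0 : ℝ) < NN α K n := by exact_mod_cast hN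
  have hm := mm_pos (α := α) n
  have hrr := rr_pos n
  have hL := LL_pos (α := α) hK n
  have hK0 : 0 < K := by linarith
  have h1 : ∀ i ∈ (Finset.range (NN α K n)).erase i₀, mm α n / ‖ww α K n i z‖ ≤
      4 / (LL α K n * rr n) * (1 / |(i : ℝ) - i₀|) := by
    intro i hi
    rw [Finset.mem_erase, Finset.mem_range] at hi
    have h2 : 0 < |(i : ℝ) - i₀| := by
      rw [abs_pos, sub_ne_zero]
      exact_mod_cast hi.1
    have h3 := ze_dist hi.2 hi₀
    have h4 : ‖ze α K n i - ze α K n i₀‖ ≤ 2 * ‖ww α K n i z‖ := by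
      have h5 : ‖ze α K n i - ze α K n i₀‖ ≤ ‖z - ze α K n i‖ + ‖z - ze α K n i₀‖ := by
        have := norm_sub_le_norm_sub_add_norm_sub (ze α K n i) z (ze α K n i₀)
        rwa [norm_sub_rev (ze α K n i) z] at this
      have h6 := hmin i hi.2
      have h7 := ww_norm (α := α) (K := K) n i z
      have h8 := ww_norm (α := α) (K := K) n i₀ z
      linarith
    have h5 : rr n / NN α K n * |(i : ℝ) - i₀| / 4 ≤ ‖ww α K n i z‖ := by linarith
    have h6 : 0 < rr n / NN α K n * |(i : ℝ) - i₀| / 4 := by positivity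
    calc mm α n / ‖ww α K n i z‖ ≤ mm α n / (rr n / NN α K n * |(i : ℝ) - i₀| / 4) :=
          div_le_div_of_nonneg_left hm.le h6 h5
      _ = (NN α K n * mm α n) * (4 / rr n * (1 / |(i : ℝ) - i₀|)) := by field_simp
      _ ≤ (1 / LL α K n) * (4 / rr n * (1 / |(i : ℝ) - i₀|)) :=
          mul_le_mul_of_nonneg_right (NN_mul hK n) (by positivity)
      _ = 4 / (LL α K n * rr n) * (1 / |(i : ℝ) - i₀|) := by field_simp
  have hq := q_pos hα hα1
  calc ∑ i ∈ (Finset.range (NN α K n)).erase i₀, mm α n / ‖ww α K n i z‖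
      ≤ ∑ i ∈ (Finset.range (NN α K n)).erase i₀, 4 / (LL α K n * rr n) * (1 / |(i : ℝ) - i₀|) :=
        Finset.sum_le_sum h1
    _ = 4 / (LL α K n * rr n) * ∑ i ∈ (Finset.range (NN α K n)).erase i₀, 1 / |(i : ℝ) - i₀| := by
        rw [Finset.mul_sum]
    _ ≤ 4 / (LL α K n * rr n) * (2 * ((1 + 3 * (1 / α - 1)) * ((n : ℝ) + 1))) := by
        refine mul_le_mul_of_nonneg_left ?_ (by positivity)
        exact (near_sum hi₀).trans (mul_le_mul_of_nonneg_left (log_NN hα hα1 hK hN) (by norm_num))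
    _ ≤ 4 / (K * ((n : ℝ) + 1) * rr n) * (2 * ((1 + 3 * (1 / α - 1)) * ((n : ℝ) + 1))) := by
        refine mul_le_mul_of_nonneg_right ?_ (by positivity)
        refine div_le_div_of_nonneg_left (by norm_num) (by positivity) ?_
        exact mul_le_mul_of_nonneg_right (LL_ge hα hα1 hK n) hrr.le
    _ = 8 * (1 + 3 * (1 / α - 1)) / K * (1 / rr n) := by
        have : (n : ℝ) + 1 ≠ 0 := by positivity
        field_simp
        ring
    _ ≤ 8 * (1 + 3 * (1 / α - 1)) / K * (4 / ‖1 - z‖) := by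
        refine mul_le_mul_of_nonneg_left ?_ (by positivity)
        rw [div_le_div_iff₀ hrr hz1]
        linarith
    _ = 32 * (1 + 3 * (1 / α - 1)) / K / ‖1 - z‖ := by ring

/-- The condition for the constant `K`. -/
def Good (α K : ℝ) : Prop := 1 ≤ K ∧ 32 * (2 * ZZ α + 32 * (1 + 3 * (1 / α - 1))) ≤ K

lemma exists_good : ∃ K, Good α K := by
  refine ⟨max 1 _, le_max_left _ _, le_max_right _ _⟩

lemma good_sum (hG : Good α K) :
    2 * ZZ α / K + 32 * (1 + 3 * (1 / α - 1)) / K ≤ 1 / 32 := by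
  obtain ⟨h1, h2⟩ := hG
  have hK0 : 0 < K := by linarith
  rw [← add_div, div_le_div_iff₀ hK0 (by norm_num)]
  linarith

include hα hα1 in
/-- The structure of the sums: at most one term is large. -/
lemma structure_lem (hG : Good α K) {z : ℂ} (hz : ‖z‖ ≤ 1) (hE : z ∉ EE α K) :
    ((∑' n, ta α K n z ≤ 1 / 32 * (1 / ‖1 - z‖)) ∧
      ‖hh α K z - 1 / (1 - z)‖ ≤ 1 / 16 * (1 / ‖1 - z‖)) ∨
    ∃ n i, i < NN α K n ∧ (‖1 - z‖ / 4 < rr n ∧ rr n < 4 * ‖1 - z‖) ∧
      (∑' n, ta α K n z ≤ mm α n / ‖ww α K n i z‖ + 1 / 32 * (1 / ‖1 - z‖)) ∧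
      ‖hh α K z - 1 / (1 - z) - ph α K n i z‖ ≤ 1 / 16 * (1 / ‖1 - z‖) := by
  have hK := hG.1
  have hK0 : 0 < K := by linarith
  have hδ : 0 < ‖1 - z‖ := (infDist_pos hE).trans_le (infDist_le_one z)
  have hq := q_pos hα hα1
  have hsum := good_sum hG
  have hZ := ZZ_nonneg (α := α)
  have hδi : 0 < 1 / ‖1 - z‖ := by positivity
  have hts := ta_summable hα hα1 hK hE
  have hLs : Summable fun n => 1 / LL α K n / (‖1 - z‖ / 2) := (LLinv_summable hα hα1).div_const _
  have hLt : ∑' n, 1 / LL α K n / (‖1 - z‖ / 2) = 2 * ZZ α / K * (1 / ‖1 - z‖) := by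
    rw [tsum_div_const, LLinv_tsum]
    field_simp
  have hL0 : ∀ n, 0 ≤ 1 / LL α K n / (‖1 - z‖ / 2) := fun n => by
    have := LL_pos (α := α) hK n
    positivity
  have hHn := HH_summable_norm hα hα1 hK hz hE
  have hH := HH_summable hα hα1 hK hz hE
  have e1 : hh α K z - 1 / (1 - z) = ∑' n, HH α K n z := by unfold hh; ring
  by_cases hcase : ∀ n i, i < NN α K n → ¬ (‖1 - z‖ / 4 < rr n ∧ rr n < 4 * ‖1 - z‖)
  · left
    have h1 : ∀ n, ta α K n z ≤ 1 / LL α K n / (‖1 - z‖ / 2) := fun n =>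
      ta_le hK (by positivity) fun i hi => far hi (hcase n i hi)
    have h2 : ∑' n, ta α K n z ≤ 1 / 32 * (1 / ‖1 - z‖) := by
      refine (hts.tsum_le_tsum h1 hLs).trans ?_
      rw [hLt]
      refine mul_le_mul_of_nonneg_right ?_ hδi.le
      have : 0 ≤ 32 * (1 + 3 * (1 / α - 1)) / K := by positivity
      linarith
    refine ⟨h2, ?_⟩
    rw [e1]
    refine (norm_tsum_le_tsum_norm hHn).trans ?_
    refine (hHn.tsum_le_tsum (fun n => HH_norm n hz hE) (hts.mul_left 2)).trans ?_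
    rw [tsum_mul_left]
    linarith
  · right
    push Not at hcase
    obtain ⟨n, i, hi, hnear⟩ := hcase
    obtain ⟨i₀, hi₀, hmin⟩ := Finset.exists_min_image (Finset.range (NN α K n))
      (fun i => ‖ww α K n i z‖) ⟨i, Finset.mem_range.2 hi⟩
    have hi₀' := Finset.mem_range.1 hi₀
    have hfar : ∀ m, m ≠ n → ta α K m z ≤ 1 / LL α K m / (‖1 - z‖ / 2) := fun m hm =>
      ta_le hK (by positivity) fun i hi => far hi fun h => hm (near_unique h hnear)
    have hrest := block_rest hα hα1 hK hi₀' hδ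
      (fun i hi => hmin i (Finset.mem_range.2 hi)) hnear.1
    -- the sum over the other blocks
    have hit : Summable fun m => if m = n then 0 else ta α K m z :=
      Summable.of_nonneg_of_le (fun m => by split_ifs; exacts [le_rfl, ta_nonneg m z])
        (fun m => by split_ifs; exacts [ta_nonneg m z, le_rfl]) hts
    have ho : ∑' m, (if m = n then 0 else ta α K m z) ≤ 2 * ZZ α / K * (1 / ‖1 - z‖) := by
      rw [← hLt]
      refine hit.tsum_le_tsum (fun m => ?_) hLs
      split_ifs with h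
      · exact hL0 m
      · exact hfar m h
    have hta : ta α K n z = mm α n / ‖ww α K n i₀ z‖ +
        ∑ i ∈ (Finset.range (NN α K n)).erase i₀, mm α n / ‖ww α K n i z‖ := by
      unfold ta
      exact (Finset.add_sum_erase _ (fun i => mm α n / ‖ww α K n i z‖) hi₀).symm
    have hHH : HH α K n z - ph α K n i₀ z =
        ∑ i ∈ (Finset.range (NN α K n)).erase i₀, ph α K n i z := by
      unfold HH
      rw [← Finset.add_sum_erase _ _ hi₀]
      ring
    have hHH' : ‖HH α K n z - ph α K n i₀ z‖ ≤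
        2 * (32 * (1 + 3 * (1 / α - 1)) / K / ‖1 - z‖) := by
      rw [hHH]
      refine le_trans ?_ (mul_le_mul_of_nonneg_left hrest (by norm_num : (0 : ℝ) ≤ 2))
      rw [Finset.mul_sum]
      refine norm_sum_le_of_le _ fun i hi => ph_norm hz (ww_ne ?_ hE)
      exact Finset.mem_range.1 (Finset.mem_of_mem_erase hi)
    refine ⟨n, i₀, hi₀', hnear, ?_, ?_⟩
    · rw [hts.tsum_eq_add_tsum_ite n, hta]
      have h3 : 32 * (1 + 3 * (1 / α - 1)) / K / ‖1 - z‖ =
          32 * (1 + 3 * (1 / α - 1)) / K * (1 / ‖1 - z‖) := by ring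
      rw [h3] at hrest
      have h4 := mul_le_mul_of_nonneg_right hsum hδi.le
      rw [add_mul] at h4
      linarith
    · have hHite : Summable fun m => if m = n then (0 : ℝ) else ‖HH α K m z‖ :=
        Summable.of_nonneg_of_le (fun m => by split_ifs; exacts [le_rfl, norm_nonneg _])
          (fun m => by split_ifs; exacts [norm_nonneg _, le_rfl]) hHn
      have h5 : ‖∑' m, (if m = n then (0 : ℂ) else HH α K m z)‖ ≤
          2 * (2 * ZZ α / K * (1 / ‖1 - z‖)) := by
        refine le_trans ?_ (mul_le_mul_of_nonneg_left ho (by norm_num : (0 : ℝ) ≤ 2))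
        rw [← tsum_mul_left]
        have h6 : ∀ m, ‖(if m = n then (0 : ℂ) else HH α K m z)‖ =
            if m = n then (0 : ℝ) else ‖HH α K m z‖ := fun m => by split_ifs <;> simp
        refine (norm_tsum_le_tsum_norm (by simpa only [h6] using hHite)).trans ?_
        simp only [h6]
        refine hHite.tsum_le_tsum (fun m => ?_) (hit.mul_left 2)
        split_ifs
        · simp
        · exact HH_norm m hz hE
      rw [e1, hH.tsum_eq_add_tsum_ite n, add_sub_right_comm]
      refine (norm_add_le _ _).trans ?_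
      have h3 : 2 * (32 * (1 + 3 * (1 / α - 1)) / K / ‖1 - z‖) =
          2 * (32 * (1 + 3 * (1 / α - 1)) / K * (1 / ‖1 - z‖)) := by ring
      rw [h3] at hHH'
      have h4 := mul_le_mul_of_nonneg_right hsum hδi.le
      rw [add_mul] at h4
      linarith

end

end Pool.Agent.Helper1K1.PK
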