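import Pool.Agent.Helper1K1.PK.A3

/-!
# The estimates of the function
-/

set_option autoImplicit false

open Metric Filter Topology Set Real

namespace Pool.Agent.Helper1K1.PK

/-- The elementary inequality behind the lower bound. -/
lemma elem {u v ir x N : ℝ} (hu : 0 < u) (hx : 0 < x) (h1 : u / 4 < ir) (h2 : ir < 4 * u)
    (hv : v = ir / x) (ha : x ≤ 1 / 64 → v - u - v / 64 - u / 16 ≤ N)
    (hb : 64 ≤ x → u - 2 * v - u / 16 ≤ N)
    (hc : ir / (1 + x) ^ 2 ≤ N) : (u + (v + u / 32)) / 5000000 ≤ N := by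
  have hir : 0 < ir := by linarith
  have hv0 : 0 < v := by rw [hv]; positivity
  have hvx : v * x = ir := by rw [hv]; field_simp
  rcases le_or_gt x (1 / 64) with h | h
  · have h3 := ha h
    have h4 : 64 * ir ≤ v := by nlinarith
    linarith
  rcases le_or_gt 64 x with h' | h'
  · have h3 := hb h'
    have h4 : 64 * v ≤ ir := by nlinarith
    linarith
  · have h3 : ir / 4225 ≤ ir / (1 + x) ^ 2 := by
      refine div_le_div_of_nonneg_left hir.le (by positivity) ?_
      nlinarith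
    have h4 : v ≤ 64 * ir := by nlinarith
    linarith

section

variable {α K : ℝ} (hα : 0 < α) (hα1 : α < 1)

include hα hα1 in
/-- The lower bound. -/
lemma hh_lower (hG : Good α K) {z : ℂ} (hz : ‖z‖ ≤ 1) (hE : z ∉ EE α K) :
    SS α K z / 5000000 ≤ ‖hh α K z‖ := by
  have hK := hG.1
  have hδ : 0 < ‖1 - z‖ := (infDist_pos hE).trans_le (infDist_le_one z)
  have hu : 0 < 1 / ‖1 - z‖ := by positivity
  have ha : ‖1 / (1 - z)‖ = 1 / ‖1 - z‖ := by rw [norm_div, norm_one]
  rcases structure_lem hα hα1 hG hz hE with ⟨h1, h2⟩ | ⟨n, i, hi, hnear, h1, h2⟩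
  · unfold SS
    have h3 : ‖1 / (1 - z)‖ ≤ ‖hh α K z‖ + ‖hh α K z - 1 / (1 - z)‖ := by
      have := norm_sub_le (hh α K z) (hh α K z - 1 / (1 - z))
      rwa [sub_sub_cancel] at this
    rw [ha] at h3
    linarith
  · have hw := ww_ne hi hE
    have hw0 : 0 < ‖ww α K n i z‖ := norm_pos_iff.2 hw
    have hm := mm_pos (α := α) n
    have hr := rr_pos n
    have hρ : 0 < mm α n * rr n := mul_pos hm hr
    obtain ⟨g1, g2⟩ := norm_add_ge (ww_re (α := α) (K := K) n i hz) hρ.le
    set w := ww α K n i z with hwdef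
    set ρ : ℝ := mm α n * rr n with hρdef
    have hph : ph α K n i z = (mm α n : ℂ) / w + (mm α n : ℂ) / (w + (ρ : ℂ)) := by
      unfold ph
      rw [← hwdef, ← hρdef]
      ring
    have hn1 : ‖(mm α n : ℂ) / w‖ = mm α n / ‖w‖ := by
      rw [norm_div, Complex.norm_real, Real.norm_of_nonneg hm.le]
    have hn2 : ‖(mm α n : ℂ) / (w + (ρ : ℂ))‖ = mm α n / ‖w + ρ‖ := by
      rw [norm_div, Complex.norm_real, Real.norm_of_nonneg hm.le]
    have hk := elem (u := 1 / ‖1 - z‖) (v := mm α n / ‖w‖) (ir := 1 / rr n) (x := ‖w‖ / ρ)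
      (N := ‖hh α K z‖) hu (by positivity)
      (by
        rw [div_div, div_lt_div_iff₀ (by positivity) hr]
        linarith [hnear.2])
      (by
        rw [mul_one_div, div_lt_div_iff₀ hr hδ]
        linarith [hnear.1])
      (by rw [hρdef]; field_simp)
      (by
        intro hx
        have h3 : ‖(mm α n : ℂ) / w‖ ≤ ‖hh α K z‖ + (‖1 / (1 - z)‖ +
            (‖(mm α n : ℂ) / (w + (ρ : ℂ))‖ + ‖hh α K z - 1 / (1 - z) - ph α K n i z‖)) := by
          have e : (mm α n : ℂ) / w = hh α K z - (1 / (1 - z) + ((mm α n : ℂ) / (w + (ρ : ℂ)) +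
              (hh α K z - 1 / (1 - z) - ph α K n i z))) := by rw [hph]; ring
          conv_lhs => rw [e]
          refine (norm_sub_le _ _).trans (add_le_add le_rfl ?_)
          exact (norm_add_le _ _).trans (add_le_add le_rfl (norm_add_le _ _))
        rw [hn1, hn2, ha] at h3
        have h4 : mm α n / ‖w + ρ‖ ≤ mm α n / ‖w‖ / 64 := by
          rw [div_div]
          refine div_le_div_of_nonneg_left hm.le (by positivity) ?_
          rw [div_le_iff₀ hρ] at hx
          linarith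
        linarith)
      (by
        intro hx
        have h3 : ‖1 / (1 - z)‖ ≤ ‖hh α K z‖ + (‖ph α K n i z‖ +
            ‖hh α K z - 1 / (1 - z) - ph α K n i z‖) := by
          have e : 1 / (1 - z) = hh α K z - (ph α K n i z +
              (hh α K z - 1 / (1 - z) - ph α K n i z)) := by ring
          conv_lhs => rw [e]
          exact (norm_sub_le _ _).trans (add_le_add le_rfl (norm_add_le _ _))
        have h4 := ph_norm (α := α) (K := K) (n := n) (i := i) hz hw
        rw [ha] at h3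
        linarith)
      (by
        have h3 := hh_re hα hα1 hK hz hE n
        have h4 : (ph α K n i z).re ≤ (HH α K n z).re := by
          unfold HH
          rw [Complex.re_sum]
          exact Finset.single_le_sum (f := fun i => (ph α K n i z).re)
            (fun j _ => ph_re_nonneg hz) (Finset.mem_range.2 hi)
        have h5 := ph_re (α := α) (K := K) (n := n) (i := i) hz
        have h6 : (hh α K z).re ≤ ‖hh α K z‖ := Complex.re_le_norm _
        refine le_trans (le_of_eq ?_) (h5.trans (h4.trans (h3.le.trans h6)))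
        rw [← hwdef, ← hρdef]
        have e : 1 + ‖w‖ / ρ = (‖w‖ + ρ) / ρ := by field_simp; ring
        rw [e, hρdef]
        field_simp)
    refine le_trans ?_ hk
    unfold SS
    have : 1 / ‖1 - z‖ + ∑' n, ta α K n z ≤
        1 / ‖1 - z‖ + (mm α n / ‖w‖ + 1 / ‖1 - z‖ / 32) := by
      have := h1
      linarith
    linarith

lemma SS_ge_term (hK : 1 ≤ K) (hα : 0 < α) (hα1 : α < 1) {z : ℂ} (hE : z ∉ EE α K) {n i : ℕ}
    (hi : i < NN α K n) : 1 / ‖1 - z‖ + mm α n / ‖ww α K n i z‖ ≤ SS α K z := by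
  unfold SS
  have h1 : mm α n / ‖ww α K n i z‖ ≤ ta α K n z := by
    unfold ta
    exact Finset.single_le_sum (f := fun i => mm α n / ‖ww α K n i z‖)
      (fun j _ => div_nonneg (mm_pos n).le (norm_nonneg _)) (Finset.mem_range.2 hi)
  have h2 : ta α K n z ≤ ∑' n, ta α K n z :=
    (ta_summable hα hα1 hK hE).le_tsum n fun j _ => ta_nonneg j z
  linarith

lemma SS_ge_one (z : ℂ) : 1 / ‖1 - z‖ ≤ SS α K z := by
  unfold SS
  have : 0 ≤ ∑' n, ta α K n z := tsum_nonneg fun n => ta_nonneg n z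
  linarith

/-- The lower bound by the distance. -/
lemma SS_ge_dist (hK : 1 ≤ K) (hα : 0 < α) (hα1 : α < 1) {z : ℂ} (hz : ‖z‖ ≤ 1)
    (hE : z ∉ EE α K) : (infDist z (EE α K)) ^ (-α) / 6 ≤ SS α K z := by
  have hd := infDist_pos hE
  have hδ := infDist_le_one (α := α) (K := K) z
  have hδ0 : 0 < ‖1 - z‖ := hd.trans_le hδ
  have hδ2 : ‖1 - z‖ ≤ 2 := by
    refine (norm_sub_le _ _).trans ?_
    rw [norm_one]
    linarith
  set d := infDist z (EE α K) with hddef
  have hd2 : d ≤ 2 := hδ.trans hδ2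
  -- `d ^ (-α) ≤ 2 / d`
  have hda : d ^ (-α) ≤ 2 * (1 / d) := by
    have e : d ^ (-α) = d ^ (1 - α) * (1 / d) := by
      rw [one_div, ← Real.rpow_neg_one d, ← Real.rpow_add hd]
      congr 1
      ring
    rw [e]
    refine mul_le_mul_of_nonneg_right ?_ (by positivity)
    calc d ^ (1 - α) ≤ 2 ^ (1 - α) := Real.rpow_le_rpow hd.le hd2 (by linarith)
      _ ≤ 2 ^ (1 : ℝ) := Real.rpow_le_rpow_of_exponent_le (by norm_num) (by linarith)
      _ = 2 := Real.rpow_one 2
  obtain ⟨ζ, hζE, hζ⟩ := (EE_compact (α := α) (K := K)).exists_infDist_eq_dist EE_nonempty z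
  rcases hζE with rfl | ⟨n, i, hi, rfl⟩
  · have h1 : d = ‖1 - z‖ := by rw [hddef, hζ, dist_eq_norm, norm_sub_rev]
    have h2 := SS_ge_one (α := α) (K := K) z
    rw [← h1] at h2
    have : 0 < 1 / d := by positivity
    linarith
  · have hdw : d = ‖ww α K n i z‖ := by rw [hddef, hζ, dist_eq_norm, ww_norm]
    have h1 := SS_ge_term hK hα hα1 hE hi
    rw [← hdw] at h1
    have h2 := (ze_one hi).2
    have h3 : ‖1 - z‖ ≤ ‖1 - ze α K n i‖ + ‖z - ze α K n i‖ := by
      have := norm_sub_le_norm_sub_add_norm_sub (1 : ℂ) (ze α K n i) z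
      rwa [norm_sub_rev (ze α K n i) z] at this
    rw [← ww_norm n i z, ← hdw] at h3
    have hr := rr_pos n
    have hm := mm_pos (α := α) n
    have hmd : 0 < mm α n / d := by positivity
    rcases le_or_gt (rr n) d with h4 | h4
    · have h5 : 1 / (3 * d) ≤ 1 / ‖1 - z‖ := one_div_le_one_div_of_le hδ0 (by linarith)
      have h6 : 1 / (3 * d) = 1 / d / 3 := by rw [div_div, mul_comm]
      linarith
    · have h5 : 1 / (3 * rr n) ≤ 1 / ‖1 - z‖ := one_div_le_one_div_of_le hδ0 (by linarith)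
      have h6 : 1 / (3 * rr n) = 1 / rr n / 3 := by rw [div_div, mul_comm]
      have hir : 0 < 1 / rr n := by positivity
      have hρ : 0 < mm α n * rr n := mul_pos hm hr
      rcases le_or_gt (mm α n * rr n) d with h7 | h7
      · have h8 : d ^ (-α) ≤ 1 / rr n := by
          rw [← rho_rpow hα n]
          exact Real.rpow_le_rpow_of_nonpos hρ h7 (by linarith)
        linarith
      · have h8 : d ^ (-α) ≤ mm α n / d := by
          have e : d ^ (-α) = d ^ (1 - α) * (1 / d) := by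
            rw [one_div, ← Real.rpow_neg_one d, ← Real.rpow_add hd]
            congr 1
            ring
          rw [e, mul_one_div]
          refine div_le_div_of_nonneg_right ?_ hd.le
          rw [mm_eq hα n]
          exact Real.rpow_le_rpow hd.le h7.le (by linarith)
        have : 0 < d ^ (-α) := by positivity
        linarith

lemma inv_diff {a b : ℂ} (ha : a ≠ 0) (hb : b ≠ 0) : ‖1 / a - 1 / b‖ = ‖a - b‖ / (‖a‖ * ‖b‖) := by
  rw [div_sub_div _ _ ha hb, norm_div, norm_mul, one_mul, mul_one, norm_sub_rev]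

lemma ph_diff {n i : ℕ} {z w : ℂ} (hz : ‖z‖ ≤ 1) (hw : ‖w‖ ≤ 1) (h1 : ww α K n i z ≠ 0)
    (h2 : ww α K n i w ≠ 0) : ‖ph α K n i z - ph α K n i w‖ ≤
      2 * (mm α n * ‖z - w‖ / (‖ww α K n i z‖ * ‖ww α K n i w‖)) := by
  have hρ : 0 ≤ mm α n * rr n := (mul_pos (mm_pos n) (rr_pos n)).le
  obtain ⟨a1, -⟩ := norm_add_ge (ww_re (α := α) (K := K) n i hz) hρ
  obtain ⟨b1, -⟩ := norm_add_ge (ww_re (α := α) (K := K) n i hw) hρ
  have hz0 : 0 < ‖ww α K n i z‖ := norm_pos_iff.2 h1
  have hw0 : 0 < ‖ww α K n i w‖ := norm_pos_iff.2 h2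
  have hdiff : ‖ww α K n i z - ww α K n i w‖ = ‖z - w‖ := by
    unfold ww
    have e : 1 - (starRingEnd ℂ) (ze α K n i) * z - (1 - (starRingEnd ℂ) (ze α K n i) * w) =
        (starRingEnd ℂ) (ze α K n i) * (w - z) := by ring
    rw [e, norm_mul, RCLike.norm_conj, ze_norm, one_mul, norm_sub_rev]
  have e : ph α K n i z - ph α K n i w = (mm α n : ℂ) *
      ((1 / ww α K n i z - 1 / ww α K n i w) +
        (1 / (ww α K n i z + ((mm α n * rr n : ℝ) : ℂ)) -
          1 / (ww α K n i w + ((mm α n * rr n : ℝ) : ℂ)))) := by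
    unfold ph
    ring
  have c1 : ww α K n i z + ((mm α n * rr n : ℝ) : ℂ) ≠ 0 := norm_pos_iff.1 (hz0.trans_le a1)
  have c2 : ww α K n i w + ((mm α n * rr n : ℝ) : ℂ) ≠ 0 := norm_pos_iff.1 (hw0.trans_le b1)
  rw [e, norm_mul, Complex.norm_real, Real.norm_of_nonneg (mm_pos n).le]
  have h3 : ‖(1 / ww α K n i z - 1 / ww α K n i w) +
        (1 / (ww α K n i z + ((mm α n * rr n : ℝ) : ℂ)) -
          1 / (ww α K n i w + ((mm α n * rr n : ℝ) : ℂ)))‖ ≤
      ‖z - w‖ / (‖ww α K n i z‖ * ‖ww α K n i w‖) + ‖z - w‖ / (‖ww α K n i z‖ * ‖ww α K n i w‖) := by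
    refine (norm_add_le _ _).trans ?_
    rw [inv_diff h1 h2, inv_diff c1 c2, add_sub_add_right_eq_sub, hdiff]
    refine add_le_add le_rfl ?_
    refine div_le_div_of_nonneg_left (norm_nonneg _) (by positivity) ?_
    exact mul_le_mul a1 b1 hw0.le (norm_nonneg _)
  calc mm α n * _ ≤ mm α n * (‖z - w‖ / (‖ww α K n i z‖ * ‖ww α K n i w‖) +
        ‖z - w‖ / (‖ww α K n i z‖ * ‖ww α K n i w‖)) :=
        mul_le_mul_of_nonneg_left h3 (mm_pos n).le
    _ = _ := by ring

/-- The difference estimate. -/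
lemma hh_diff (hK : 1 ≤ K) (hα : 0 < α) (hα1 : α < 1) {z w : ℂ} (hz : ‖z‖ ≤ 1) (hw : ‖w‖ ≤ 1)
    (h1 : z ∉ EE α K) (h2 : w ∉ EE α K) :
    ‖hh α K z - hh α K w‖ ≤ 2 * ‖z - w‖ * SS α K z / infDist w (EE α K) := by
  have hd := infDist_pos h2
  have hδz : 0 < ‖1 - z‖ := (infDist_pos h1).trans_le (infDist_le_one z)
  have hδw : 0 < ‖1 - w‖ := hd.trans_le (infDist_le_one w)
  set d := infDist w (EE α K) with hddef
  have hzs := HH_summable hα hα1 hK hz h1
  have hws := HH_summable hα hα1 hK hw h2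
  have hts := ta_summable hα hα1 hK h1
  have e : hh α K z - hh α K w = (1 / (1 - z) - 1 / (1 - w)) + ∑' n, (HH α K n z - HH α K n w) := by
    unfold hh
    rw [hzs.tsum_sub hws]
    ring
  have h3 : ∀ n, ‖HH α K n z - HH α K n w‖ ≤ 2 * ‖z - w‖ / d * ta α K n z := by
    intro n
    unfold HH ta
    rw [← Finset.sum_sub_distrib, Finset.mul_sum]
    refine norm_sum_le_of_le _ fun i hi => ?_
    have hi' := Finset.mem_range.1 hi
    have hzi := ww_ne hi' h1
    have hwi := ww_ne hi' h2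
    have hz0 : 0 < ‖ww α K n i z‖ := norm_pos_iff.2 hzi
    refine (ph_diff hz hw hzi hwi).trans ?_
    have hm := mm_pos (α := α) n
    have h4 : d ≤ ‖ww α K n i w‖ := infDist_le_w hi' w
    calc 2 * (mm α n * ‖z - w‖ / (‖ww α K n i z‖ * ‖ww α K n i w‖))
        ≤ 2 * (mm α n * ‖z - w‖ / (‖ww α K n i z‖ * d)) := by
          refine mul_le_mul_of_nonneg_left ?_ (by norm_num)
          refine div_le_div_of_nonneg_left (by positivity) (by positivity) ?_
          exact mul_le_mul_of_nonneg_left h4 hz0.le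
      _ = 2 * ‖z - w‖ / d * (mm α n / ‖ww α K n i z‖) := by field_simp
  have hsum : Summable fun n => ‖HH α K n z - HH α K n w‖ :=
    Summable.of_nonneg_of_le (fun _ => norm_nonneg _) h3 (hts.mul_left _)
  have h5 : ‖∑' n, (HH α K n z - HH α K n w)‖ ≤ 2 * ‖z - w‖ / d * ∑' n, ta α K n z := by
    refine (norm_tsum_le_tsum_norm hsum).trans ?_
    rw [← tsum_mul_left]
    exact hsum.tsum_le_tsum h3 (hts.mul_left _)
  have h6 : ‖1 / (1 - z) - 1 / (1 - w)‖ ≤ 2 * ‖z - w‖ / d * (1 / ‖1 - z‖) := by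
    rw [inv_diff (norm_pos_iff.1 hδz) (norm_pos_iff.1 hδw)]
    have e1 : (1 : ℂ) - z - (1 - w) = w - z := by ring
    rw [e1, norm_sub_rev]
    have h7 : d ≤ ‖1 - w‖ := infDist_le_one w
    calc ‖z - w‖ / (‖1 - z‖ * ‖1 - w‖) ≤ ‖z - w‖ / (‖1 - z‖ * d) := by
          refine div_le_div_of_nonneg_left (norm_nonneg _) (by positivity) ?_
          exact mul_le_mul_of_nonneg_left h7 hδz.le
      _ ≤ 2 * (‖z - w‖ / (‖1 - z‖ * d)) := by
          have : 0 ≤ ‖z - w‖ / (‖1 - z‖ * d) := by positivity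
          linarith
      _ = _ := by field_simp
  rw [e]
  refine (norm_add_le _ _).trans ((add_le_add h6 h5).trans (le_of_eq ?_))
  unfold SS
  ring

end

end Pool.Agent.Helper1K1.PK
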