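import Pool.Agent.Helper1K1.PK.A4

/-!
# The peak function
-/

set_option autoImplicit false

open Metric Filter Topology Set Real

namespace Pool.Agent.Helper1K1.PK

open Classical in
/-- The peak function. -/
noncomputable def ff (α K : ℝ) (z : ℂ) : ℂ := if z ∈ EE α K then 1 else hh α K z / (hh α K z + 1)

section

variable {α K : ℝ}

lemma hh_ne (hG : Good α K) (hα : 0 < α) (hα1 : α < 1) {z : ℂ} (hz : ‖z‖ ≤ 1) (hE : z ∉ EE α K) :
    hh α K z ≠ 0 ∧ ‖hh α K z‖ ≤ ‖hh α K z + 1‖ := by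
  have h1 := hh_re_pos hα hα1 hG.1 hz hE
  constructor
  · intro h
    rw [h] at h1
    simp at h1
  · have := (norm_add_ge h1.le (zero_le_one (α := ℝ))).1
    simpa using this

lemma one_sub_ff (hG : Good α K) (hα : 0 < α) (hα1 : α < 1) {z : ℂ} (hz : ‖z‖ ≤ 1) :
    ‖ff α K z - 1‖ ≤ 30000000 * (infDist z (EE α K)) ^ α := by
  unfold ff
  split_ifs with hE
  · rw [sub_self, norm_zero]
    exact mul_nonneg (by norm_num) (Real.rpow_nonneg infDist_nonneg _)
  · obtain ⟨h1, h2⟩ := hh_ne hG hα hα1 hz hE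
    have h3 := hh_lower hα hα1 hG hz hE
    have h4 := SS_ge_dist hG.1 hα hα1 hz hE
    have hd := infDist_pos hE
    have h0 : 0 < ‖hh α K z‖ := norm_pos_iff.2 h1
    have h5 : hh α K z + 1 ≠ 0 := norm_pos_iff.1 (h0.trans_le h2)
    have e : hh α K z / (hh α K z + 1) - 1 = -(1 / (hh α K z + 1)) := by
      field_simp
      ring
    rw [e, norm_neg, norm_div, norm_one]
    have h6 : (infDist z (EE α K)) ^ (-α) / 30000000 ≤ ‖hh α K z + 1‖ := by linarith
    have h7 : 0 < (infDist z (EE α K)) ^ (-α) / 30000000 := by positivity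
    refine (one_div_le_one_div_of_le h7 h6).trans (le_of_eq ?_)
    rw [Real.rpow_neg hd.le]
    have : (infDist z (EE α K)) ^ α ≠ 0 := by positivity
    field_simp

lemma ff_diff (hG : Good α K) (hα : 0 < α) (hα1 : α < 1) {z w : ℂ} (hz : ‖z‖ ≤ 1) (hw : ‖w‖ ≤ 1)
    (h1 : z ∉ EE α K) (h2 : w ∉ EE α K) :
    ‖ff α K z - ff α K w‖ ≤ 300000000000000 * (‖z - w‖ * (infDist w (EE α K)) ^ (α - 1)) := by
  unfold ff
  rw [if_neg h1, if_neg h2]
  obtain ⟨a1, a2⟩ := hh_ne hG hα hα1 hz h1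
  obtain ⟨b1, b2⟩ := hh_ne hG hα hα1 hw h2
  have a0 : 0 < ‖hh α K z‖ := norm_pos_iff.2 a1
  have b0 : 0 < ‖hh α K w‖ := norm_pos_iff.2 b1
  have a3 : hh α K z + 1 ≠ 0 := norm_pos_iff.1 (a0.trans_le a2)
  have b3 : hh α K w + 1 ≠ 0 := norm_pos_iff.1 (b0.trans_le b2)
  have e : hh α K z / (hh α K z + 1) - hh α K w / (hh α K w + 1) =
      (hh α K z - hh α K w) / ((hh α K z + 1) * (hh α K w + 1)) := by
    field_simp
    ring
  rw [e, norm_div, norm_mul]
  have h3 := hh_lower hα hα1 hG hz h1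
  have h4 := hh_lower hα hα1 hG hw h2
  have h5 := SS_ge_dist hG.1 hα hα1 hw h2
  have h6 := hh_diff hG.1 hα hα1 hz hw h1 h2
  have hd := infDist_pos h2
  set d := infDist w (EE α K) with hddef
  have hS : 0 < SS α K z := by
    have h7 := SS_ge_dist hG.1 hα hα1 hz h1
    have h8 := infDist_pos h1
    have : 0 < (infDist z (EE α K)) ^ (-α) := by positivity
    linarith
  have hda : 0 < d ^ (-α) := by positivity
  have h7 : SS α K z / 5000000 * (d ^ (-α) / 30000000) ≤ ‖hh α K z + 1‖ * ‖hh α K w + 1‖ := by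
    refine mul_le_mul (h3.trans a2) (le_trans ?_ b2) (by positivity) (norm_nonneg _)
    linarith
  calc ‖hh α K z - hh α K w‖ / (‖hh α K z + 1‖ * ‖hh α K w + 1‖)
      ≤ (2 * ‖z - w‖ * SS α K z / d) / (SS α K z / 5000000 * (d ^ (-α) / 30000000)) :=
        div_le_div₀ (by positivity) h6 (by positivity) h7
    _ = 300000000000000 * (‖z - w‖ * (1 / (d * d ^ (-α)))) := by
        field_simp
        ring
    _ = _ := by
        congr 2
        have e1 : d * d ^ (-α) = d ^ (1 - α) := by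
          conv_lhs => rw [← Real.rpow_one d, ← Real.rpow_mul hd.le, one_mul, ← Real.rpow_add hd]
          rfl
        rw [e1, one_div, ← Real.rpow_neg hd.le]
        congr 1
        ring

lemma ff_holder_aux (hG : Good α K) (hα : 0 < α) (hα1 : α < 1) {z w : ℂ} (hz : ‖z‖ ≤ 1)
    (hw : ‖w‖ ≤ 1) (hd : infDist z (EE α K) ≤ infDist w (EE α K)) :
    ‖ff α K z - ff α K w‖ ≤ 300000000000000 * ‖z - w‖ ^ α := by
  rcases eq_or_ne z w with rfl | hne
  · simp only [sub_self, norm_zero]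
    rw [Real.zero_rpow hα.ne']
    simp
  have hzw : 0 < ‖z - w‖ := norm_pos_iff.2 (sub_ne_zero.2 hne)
  have hpos : 0 ≤ ‖z - w‖ ^ α := by positivity
  -- the case of short distances to the set
  have key : infDist w (EE α K) ≤ ‖z - w‖ → ‖ff α K z - ff α K w‖ ≤ 60000000 * ‖z - w‖ ^ α := by
    intro h
    have h1 := one_sub_ff hG hα hα1 hz
    have h2 := one_sub_ff hG hα hα1 hw
    have h3 : (infDist w (EE α K)) ^ α ≤ ‖z - w‖ ^ α := Real.rpow_le_rpow infDist_nonneg h hα.le
    have h4 : (infDist z (EE α K)) ^ α ≤ ‖z - w‖ ^ α :=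
      Real.rpow_le_rpow infDist_nonneg (hd.trans h) hα.le
    have h5 : ‖ff α K z - ff α K w‖ ≤ ‖ff α K z - 1‖ + ‖ff α K w - 1‖ := by
      have := norm_sub_le (ff α K z - 1) (ff α K w - 1)
      rwa [sub_sub_sub_cancel_right] at this
    linarith
  by_cases h : infDist w (EE α K) ≤ ‖z - w‖
  · have := key h
    linarith
  push Not at h
  have hwE : w ∉ EE α K := by
    intro hw'
    rw [infDist_zero_of_mem hw'] at h
    linarith
  have hzE : z ∉ EE α K := by
    intro hz'
    have := infDist_le_dist_of_mem (x := w) hz'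
    rw [dist_eq_norm, norm_sub_rev] at this
    linarith
  refine (ff_diff hG hα hα1 hz hw hzE hwE).trans ?_
  refine mul_le_mul_of_nonneg_left ?_ (by norm_num)
  have h1 : (infDist w (EE α K)) ^ (α - 1) ≤ ‖z - w‖ ^ (α - 1) :=
    Real.rpow_le_rpow_of_nonpos hzw h.le (by linarith)
  calc ‖z - w‖ * (infDist w (EE α K)) ^ (α - 1) ≤ ‖z - w‖ * ‖z - w‖ ^ (α - 1) :=
        mul_le_mul_of_nonneg_left h1 hzw.le
    _ = ‖z - w‖ ^ α := by
        rw [Real.rpow_sub_one hzw.ne']
        field_simp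

lemma ff_holder (hG : Good α K) (hα : 0 < α) (hα1 : α < 1) {z w : ℂ} (hz : ‖z‖ ≤ 1)
    (hw : ‖w‖ ≤ 1) : ‖ff α K z - ff α K w‖ ≤ 300000000000000 * ‖z - w‖ ^ α := by
  rcases le_total (infDist z (EE α K)) (infDist w (EE α K)) with h | h
  · exact ff_holder_aux hG hα hα1 hz hw h
  · rw [norm_sub_rev, norm_sub_rev z w]
    exact ff_holder_aux hG hα hα1 hw hz h

lemma not_mem_of_lt {z : ℂ} (hz : ‖z‖ < 1) : z ∉ EE α K := by
  intro h
  have : ‖z‖ = 1 := by simpa using EE_sub h
  linarith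

lemma HH_diffOn (n : ℕ) : DifferentiableOn ℂ (HH α K n) (ball 0 1) := by
  unfold HH
  refine DifferentiableOn.fun_sum fun i hi => ?_
  have hi' := Finset.mem_range.1 hi
  unfold ph
  have hw : DifferentiableOn ℂ (ww α K n i) (ball 0 1) := by
    unfold ww
    fun_prop
  have hρ : 0 ≤ mm α n * rr n := (mul_pos (mm_pos n) (rr_pos n)).le
  have h1 : ∀ z ∈ ball (0 : ℂ) 1, ww α K n i z ≠ 0 := fun z hz =>
    ww_ne hi' (not_mem_of_lt (mem_ball_zero_iff.1 hz))
  have h2 : ∀ z ∈ ball (0 : ℂ) 1, ww α K n i z + ((mm α n * rr n : ℝ) : ℂ) ≠ 0 := fun z hz =>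
    norm_pos_iff.1 ((norm_pos_iff.2 (h1 z hz)).trans_le
      (norm_add_ge (ww_re n i (mem_ball_zero_iff.1 hz).le) hρ).1)
  exact (((differentiableOn_const 1).div hw h1).add
    ((differentiableOn_const 1).div (hw.add_const _) h2)).const_mul _

lemma hh_diffOn (hK : 1 ≤ K) (hα : 0 < α) (hα1 : α < 1) : DifferentiableOn ℂ (hh α K) (ball 0 1) := by
  intro z hz
  rw [mem_ball_zero_iff] at hz
  obtain ⟨R, hzR, hR⟩ := exists_between hz
  have hR0 : 0 < R := (norm_nonneg z).trans_lt hzR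
  have h1 : DifferentiableOn ℂ (fun w : ℂ => ∑' n, HH α K n w) (ball 0 R) := by
    refine Complex.differentiableOn_tsum_of_summable_norm (u := fun n => 2 * (1 / LL α K n / (1 - R)))
      (((LLinv_summable hα hα1).div_const _).mul_left 2) (fun n => ?_) isOpen_ball ?_
    · exact (HH_diffOn n).mono (ball_subset_ball hR.le)
    · intro n w hw
      rw [mem_ball_zero_iff] at hw
      have hw1 : ‖w‖ < 1 := hw.trans hR
      refine (HH_norm n hw1.le (not_mem_of_lt hw1)).trans ?_
      refine mul_le_mul_of_nonneg_left (ta_le hK (by linarith) fun i _ => ?_) (by norm_num)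
      rw [ww_norm]
      have := norm_sub_norm_le (ze α K n i) w
      rw [ze_norm, norm_sub_rev] at this
      linarith
  have h2 : DifferentiableAt ℂ (fun w : ℂ => ∑' n, HH α K n w) z :=
    h1.differentiableAt (isOpen_ball.mem_nhds (mem_ball_zero_iff.2 hzR))
  have h3 : (1 : ℂ) - z ≠ 0 := by
    rw [sub_ne_zero]
    rintro rfl
    simp at hz
  have h4 : DifferentiableAt ℂ (fun w : ℂ => 1 / (1 - w)) z := by
    refine (differentiableAt_const 1).div ?_ h3
    fun_prop
  exact (h4.add h2).differentiableWithinAt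

lemma ff_class (hG : Good α K) (hα : 0 < α) (hα1 : α < 1) : LipClass α (ff α K) := by
  refine ⟨?_, ?_, 300000000000000, fun z w hz hw => ff_holder hG hα hα1 hz.le hw.le⟩
  · have h1 : DifferentiableOn ℂ (fun z => hh α K z / (hh α K z + 1)) (ball 0 1) := by
      refine (hh_diffOn hG.1 hα hα1).div ((hh_diffOn hG.1 hα hα1).add_const _) fun z hz => ?_
      rw [mem_ball_zero_iff] at hz
      obtain ⟨a1, a2⟩ := hh_ne hG hα hα1 hz.le (not_mem_of_lt hz)
      exact norm_pos_iff.1 ((norm_pos_iff.2 a1).trans_le a2)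
    refine h1.congr fun z hz => ?_
    rw [mem_ball_zero_iff] at hz
    unfold ff
    rw [if_neg (not_mem_of_lt hz)]
  · intro w hw
    have hw' : ‖w‖ ≤ 1 := by simpa using hw
    rw [ContinuousWithinAt, tendsto_iff_norm_sub_tendsto_zero]
    have hcont : Continuous fun z : ℂ => 300000000000000 * ‖z - w‖ ^ α :=
      continuous_const.mul (Continuous.rpow_const (by fun_prop) fun _ => Or.inr hα.le)
    have hlim : Tendsto (fun z : ℂ => 300000000000000 * ‖z - w‖ ^ α) (𝓝[closedBall 0 1] w) (𝓝 0) := by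
      have := hcont.tendsto w
      rw [sub_self, norm_zero, Real.zero_rpow hα.ne', mul_zero] at this
      exact this.mono_left nhdsWithin_le_nhds
    refine squeeze_zero' (Eventually.of_forall fun _ => norm_nonneg _) ?_ hlim
    filter_upwards [self_mem_nhdsWithin] with z hz
    exact ff_holder hG hα hα1 (by simpa using hz) hw'

lemma ff_peak (hG : Good α K) (hα : 0 < α) (hα1 : α < 1) : IsPeakSet α (EE α K) := by
  refine ⟨EE_compact.isClosed, EE_sub, ff α K, ff_class hG hα hα1, fun z hz => ?_, fun z hz hE => ?_⟩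
  · unfold ff
    rw [if_pos hz]
  · unfold ff
    rw [if_neg hE, norm_div]
    have h1 := hh_re_pos hα hα1 hG.1 hz.le hE
    have h2 : ‖hh α K z‖ ^ 2 < ‖hh α K z + 1‖ ^ 2 := by
      rw [Complex.sq_norm, Complex.sq_norm, Complex.normSq_apply, Complex.normSq_apply]
      simp only [Complex.add_re, Complex.one_re, Complex.add_im, Complex.one_im, add_zero]
      nlinarith
    have h3 : ‖hh α K z‖ < ‖hh α K z + 1‖ :=
      (pow_lt_pow_iff_left₀ (norm_nonneg _) (norm_nonneg _) two_ne_zero).1 h2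
    rw [div_lt_one ((norm_nonneg _).trans_lt h3)]
    exact h3

end

end Pool.Agent.Helper1K1.PK
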