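import Pool.Agent.Helper1K1.PK.A5

/-!
# The divergence of the integral
-/

set_option autoImplicit false

open Metric Filter Topology Set Real

namespace Pool.Agent.Helper1K1.PK

lemma arcs_disjoint (s : Set ℕ) :
    s.Pairwise fun m n => Disjoint (Ioc (rr m) (2 * rr m)) (Ioc (rr n) (2 * rr n)) := by
  have key : ∀ m n : ℕ, m < n → Disjoint (Ioc (rr m) (2 * rr m)) (Ioc (rr n) (2 * rr n)) := by
    intro m n h
    rw [Set.disjoint_left]
    intro x h1 h2
    have h3 := rr_lt h
    have h4 := rr_pos m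
    linarith [h1.1, h2.2]
  intro m _ n _ hmn
  rcases lt_or_gt_of_ne hmn with h | h
  · exact key m n h
  · exact (key n m h).symm

section

variable {α K : ℝ}

lemma small_mass (_hK : 1 ≤ K) (hα : 0 < α) (hα1 : α < 1) :
    ∀ᶠ n : ℕ in atTop, mm α n * LL α K n ≤ 1 := by
  have hq := q_pos hα hα1
  have hb : 0 < (1 / α - 1) * Real.log 16 := mul_pos hq (Real.log_pos (by norm_num))
  have h1 := (tendsto_rpow_mul_exp_neg_mul_atTop_nhds_zero (1 / α) _ hb).const_mul K
  rw [mul_zero] at h1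
  have h2 : Tendsto (fun n : ℕ => (n : ℝ) + 1) atTop atTop :=
    tendsto_atTop_add_const_right _ _ tendsto_natCast_atTop_atTop
  have h3 := h1.comp h2
  have h4 := (h3.eventually (gt_mem_nhds zero_lt_one))
  filter_upwards [h4] with n hn
  refine le_trans (le_of_eq ?_) hn.le
  simp only [Function.comp_apply]
  unfold LL
  have e : mm α n = Real.exp (-((1 / α - 1) * Real.log 16) * ((n : ℝ) + 1)) := by
    unfold mm
    rw [Real.rpow_def_of_pos (rr_pos n)]
    congr 1
    unfold rr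
    have e16 : Real.log (1 / 16) = -Real.log 16 := by rw [one_div, Real.log_inv]
    rw [Real.log_pow, e16]
    push_cast
    ring
  rw [e]
  ring

lemma EE_near {n : ℕ} (hN : 0 < NN α K n) {θ : ℝ} (hθ : θ ∈ Ioc (rr n) (2 * rr n)) :
    infDist (circleMap 0 1 θ) (EE α K) ≤ rr n / NN α K n := by
  have hr := rr_pos n
  have hNr : (0 : ℝ) < NN α K n := by exact_mod_cast hN
  set x : ℝ := (θ - rr n) * NN α K n / rr n with hx
  have hx0 : 0 < x := by
    have := hθ.1
    have : 0 < θ - rr n := by linarith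
    positivity
  have hxN : x ≤ NN α K n := by
    rw [hx, div_le_iff₀ hr]
    have := hθ.2
    nlinarith
  have h1 : 0 < ⌈x⌉₊ := Nat.ceil_pos.2 hx0
  have h2 : ⌈x⌉₊ ≤ NN α K n := Nat.ceil_le.2 hxN
  obtain ⟨i, hi⟩ : ∃ i, ⌈x⌉₊ = i + 1 := ⟨⌈x⌉₊ - 1, by omega⟩
  have hiN : i < NN α K n := by omega
  have h3 : x ≤ i + 1 := by
    have := Nat.le_ceil x
    rw [hi] at this
    exact_mod_cast this
  have h4 : (i : ℝ) < x := by
    have := Nat.ceil_lt_add_one hx0.le
    rw [hi] at this
    push_cast at this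
    linarith
  refine (infDist_le_dist_of_mem (EE_mem hiN)).trans ?_
  rw [dist_eq_norm]
  unfold ze
  refine (chord_le _ _).trans ?_
  have e : θ - th α K n i = rr n / NN α K n * (x - i) := by
    unfold th
    rw [hx]
    field_simp
    ring
  rw [e, abs_mul, abs_of_pos (by positivity : 0 < rr n / (NN α K n : ℝ)),
    abs_of_pos (by linarith : 0 < x - i)]
  have : x - i ≤ 1 := by linarith
  have h5 : 0 < rr n / (NN α K n : ℝ) := by positivity
  nlinarith

lemma block_large (hK : 1 ≤ K) (hα : 0 < α) (hα1 : α < 1) {n : ℕ}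
    (hn : mm α n * LL α K n ≤ 1) : 0 < NN α K n ∧
      2 ^ (-α) * K ^ (-α) * (1 / ((n : ℝ) + 1)) ≤
        (2 * rr n - rr n) * (rr n / NN α K n) ^ (-α) := by
  have hr := rr_pos n
  have hm := mm_pos (α := α) n
  have hL := LL_pos (α := α) hK n
  have hK0 : 0 < K := by linarith
  have hx1 : 1 ≤ 1 / (mm α n * LL α K n) := by
    rw [le_div_iff₀ (by positivity), one_mul]
    exact hn
  have hN : 1 ≤ NN α K n := Nat.le_floor (by exact_mod_cast hx1)
  have hNr : (1 : ℝ) ≤ NN α K n := by exact_mod_cast hN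
  have hN2 : 1 / (mm α n * LL α K n) ≤ 2 * NN α K n := by
    have := Nat.lt_floor_add_one (1 / (mm α n * LL α K n))
    change _ < (NN α K n : ℝ) + 1 at this
    linarith
  refine ⟨by omega, ?_⟩
  have h1 : rr n / NN α K n ≤ 2 * ((mm α n * rr n) * LL α K n) := by
    rw [div_le_iff₀ (by linarith)]
    rw [div_le_iff₀ (by positivity)] at hN2
    nlinarith
  have h2 : (2 * ((mm α n * rr n) * LL α K n)) ^ (-α) ≤ (rr n / NN α K n) ^ (-α) :=
    Real.rpow_le_rpow_of_nonpos (by positivity) h1 (by linarith)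
  have h3 : (2 * ((mm α n * rr n) * LL α K n)) ^ (-α) =
      2 ^ (-α) * ((1 / rr n) * (K ^ (-α) * (1 / ((n : ℝ) + 1)))) := by
    rw [Real.mul_rpow (by norm_num) (by positivity), Real.mul_rpow (by positivity) hL.le,
      rho_rpow hα]
    unfold LL
    rw [Real.mul_rpow hK0.le (by positivity), ← Real.rpow_mul (by positivity)]
    have : 1 / α * -α = -1 := by field_simp
    rw [this, Real.rpow_neg_one, one_div ((n : ℝ) + 1)]
  rw [h3] at h2
  have h4 : 2 * rr n - rr n = rr n := by ring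
  rw [h4]
  calc 2 ^ (-α) * K ^ (-α) * (1 / ((n : ℝ) + 1)) =
        rr n * (2 ^ (-α) * ((1 / rr n) * (K ^ (-α) * (1 / ((n : ℝ) + 1))))) := by
        field_simp
    _ ≤ rr n * (rr n / NN α K n) ^ (-α) := mul_le_mul_of_nonneg_left h2 hr.le

lemma EE_diverges (hK : 1 ≤ K) (hα : 0 < α) (hα1 : α < 1) : Diverges α (EE α K) := by
  intro M
  obtain ⟨n₁, hn₁⟩ := Filter.eventually_atTop.1 (small_mass hK hα hα1)
  have hK0 : 0 < K := by linarith
  have hc : 0 < (2 : ℝ) ^ (-α) * K ^ (-α) := by positivity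
  set c : ℝ := 2 ^ (-α) * K ^ (-α) with hcdef
  obtain ⟨n₂, hn₂, hsum⟩ := ((Real.tendsto_sum_range_one_div_nat_succ_atTop.eventually_ge_atTop
    (M / c + ∑ i ∈ Finset.range n₁, 1 / ((i : ℝ) + 1))).and (eventually_ge_atTop n₁)).exists
  refine ⟨Finset.Ico n₁ n₂, rr, fun n => 2 * rr n, fun n => rr n / NN α K n, ?_,
    arcs_disjoint _, ?_, ?_⟩
  · intro n hn
    have h1 := block_large hK hα hα1 (hn₁ n (Finset.mem_Ico.1 hn).1)
    have hr := rr_pos n
    have hr' := rr_le n
    have h2 : (0 : ℝ) < NN α K n := by exact_mod_cast h1.1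
    refine ⟨hr.le, by linarith, ?_, by positivity⟩
    linarith [Real.pi_gt_three]
  · intro n hn θ hθ
    exact EE_near (block_large hK hα hα1 (hn₁ n (Finset.mem_Ico.1 hn).1)).1 hθ
  · have h1 : ∑ n ∈ Finset.Ico n₁ n₂, c * (1 / ((n : ℝ) + 1)) ≤
        ∑ n ∈ Finset.Ico n₁ n₂, (2 * rr n - rr n) * (rr n / NN α K n) ^ (-α) :=
      Finset.sum_le_sum fun n hn => (block_large hK hα hα1 (hn₁ n (Finset.mem_Ico.1 hn).1)).2
    refine le_trans ?_ h1
    rw [← Finset.mul_sum, Finset.sum_Ico_eq_sub _ hsum]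
    have h2 : M / c ≤ ∑ i ∈ Finset.range n₂, 1 / ((i : ℝ) + 1) -
        ∑ i ∈ Finset.range n₁, 1 / ((i : ℝ) + 1) := by linarith
    rw [div_le_iff₀ hc] at h2
    linarith

end

lemma one_diverges : Diverges 1 {1} := by
  intro M
  obtain ⟨n, hn⟩ := exists_nat_ge (2 * M)
  refine ⟨Finset.range n, rr, fun n => 2 * rr n, fun n => 2 * rr n, ?_, arcs_disjoint _, ?_, ?_⟩
  · intro m _
    have hr := rr_pos m
    have hr' := rr_le m
    refine ⟨hr.le, by linarith, ?_, by positivity⟩
    linarith [Real.pi_gt_three]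
  · intro m _ θ hθ
    rw [infDist_singleton, dist_eq_norm, one_eq]
    refine (chord_le _ _).trans ?_
    have hr := rr_pos m
    rw [sub_zero, abs_of_pos (hr.trans hθ.1)]
    exact hθ.2
  · have : ∀ m ∈ Finset.range n, (2 * rr m - rr m) * (2 * rr m) ^ (-1 : ℝ) = 1 / 2 := by
      intro m _
      have hr := (rr_pos m).ne'
      rw [Real.rpow_neg_one]
      field_simp
      ring
    rw [Finset.sum_congr rfl this, Finset.sum_const, Finset.card_range, nsmul_eq_mul]
    linarith

lemma one_peak : IsPeakSet 1 {1} := by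
  refine ⟨isClosed_singleton, by simp, fun z => (1 + z) / 2, ⟨by fun_prop, by fun_prop, 1, ?_⟩,
    by simp, ?_⟩
  · intro z w _ _
    rw [Real.rpow_one, one_mul, ← sub_div, add_sub_add_left_eq_sub, norm_div, Complex.norm_ofNat]
    linarith [norm_nonneg (z - w)]
  · intro z hz hz1
    rw [mem_singleton_iff] at hz1
    rw [norm_div, Complex.norm_ofNat, div_lt_one (by norm_num)]
    have h1 : ‖1 + z‖ ^ 2 < 2 ^ 2 := by
      have h2 : ‖z‖ ^ 2 = 1 := by rw [hz]; norm_num
      rw [Complex.sq_norm, Complex.normSq_apply] at h2 ⊢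
      simp only [Complex.add_re, Complex.one_re, Complex.add_im, Complex.one_im, zero_add]
      have h3 : z.re ≠ 1 := by
        intro h3
        apply hz1
        refine Complex.ext (by simpa using h3) ?_
        have : z.im * z.im = 0 := by nlinarith
        simpa using this
      have h4 : z.re < 1 := lt_of_le_of_ne (by nlinarith [mul_self_nonneg z.im]) h3
      nlinarith
    exact (pow_lt_pow_iff_left₀ (norm_nonneg _) (by norm_num) two_ne_zero).1 h1

/-- **Main theorem.** -/
theorem main (α : ℝ) (hα : 0 < α) (hα1 : α ≤ 1) :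
    ∃ E : Set ℂ, IsPeakSet α E ∧ ¬ IsGevreyZeroSet α E := by
  rcases lt_or_eq_of_le hα1 with h | rfl
  · obtain ⟨K, hG⟩ := exists_good (α := α)
    exact ⟨EE α K, ff_peak hG hα h, not_zero hα EE_nonempty (EE_diverges hG.1 hα h)⟩
  · exact ⟨{1}, one_peak, not_zero one_pos (singleton_nonempty 1) one_diverges⟩

end Pool.Agent.Helper1K1.PK
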