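import Pool.Agent.Helper1K1.PK.Defs

/-!
# Functions of a Gevrey class which are flat at a boundary point
-/

set_option autoImplicit false

open Metric Filter Topology Set

namespace Pool.Agent.Helper1K1.PK

lemma seg_mem {ζ z : ℂ} (hζ : ‖ζ‖ = 1) (hz : z ∈ ball (0 : ℂ) 1) {t : ℝ} (h0 : 0 < t) (h1 : t ≤ 1) :
    ζ + t * (z - ζ) ∈ ball (0 : ℂ) 1 := by
  rw [mem_ball_zero_iff] at hz ⊢
  have e : ζ + t * (z - ζ) = ((1 - t : ℝ) : ℂ) * ζ + (t : ℂ) * z := by push_cast; ring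
  rw [e]
  calc ‖((1 - t : ℝ) : ℂ) * ζ + (t : ℂ) * z‖ ≤ ‖((1 - t : ℝ) : ℂ) * ζ‖ + ‖(t : ℂ) * z‖ :=
        norm_add_le _ _
    _ = (1 - t) + t * ‖z‖ := by
        rw [norm_mul, norm_mul, Complex.norm_real, Complex.norm_real, hζ, Real.norm_of_nonneg h0.le,
          Real.norm_of_nonneg (by linarith), mul_one]
    _ < 1 := by nlinarith

/-- One integration. -/
lemma step {F : ℂ → ℂ} {ζ : ℂ} (hζ : ‖ζ‖ = 1) (hF : DifferentiableOn ℂ F (ball 0 1))
    (h0 : Tendsto F (𝓝[ball 0 1] ζ) (𝓝 0)) {B : ℝ} {m : ℕ}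
    (hB : ∀ z ∈ ball (0 : ℂ) 1, ‖deriv F z‖ ≤ B * ‖z - ζ‖ ^ m) :
    ∀ z ∈ ball (0 : ℂ) 1, ‖F z‖ ≤ B * ‖z - ζ‖ ^ (m + 1) / (m + 1) := by
  intro z hz
  set u : ℝ → ℂ := fun t => F (ζ + t * (z - ζ)) with hu
  have hder : ∀ t : ℝ, 0 < t → t ≤ 1 →
      HasDerivAt u (deriv F (ζ + t * (z - ζ)) * (z - ζ)) t := by
    intro t h1 h2
    have h3 : HasDerivAt F (deriv F (ζ + t * (z - ζ))) (ζ + t * (z - ζ)) :=
      (hF.differentiableAt (isOpen_ball.mem_nhds (seg_mem hζ hz h1 h2))).hasDerivAt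
    have h4 : HasDerivAt (fun s : ℝ => ζ + (s : ℂ) * (z - ζ)) (z - ζ) t := by
      have := ((Complex.ofRealCLM.hasDerivAt (x := t)).mul_const (z - ζ)).const_add ζ
      simpa using this
    exact h3.comp t h4
  have key : ∀ ε : ℝ, 0 < ε → ε < 1 → ‖F z‖ ≤ ‖u ε‖ + B * ‖z - ζ‖ ^ (m + 1) / (m + 1) := by
    intro ε hε hε1
    have hB0 : 0 ≤ B * ‖z - ζ‖ ^ (m + 1) := by
      have h1 := hB z hz
      have h2 : 0 ≤ B * ‖z - ζ‖ ^ m := (norm_nonneg _).trans h1
      rw [pow_succ, ← mul_assoc]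
      exact mul_nonneg h2 (norm_nonneg _)
    have := image_norm_le_of_norm_deriv_right_le_deriv_boundary (a := ε) (b := 1) (f := u)
      (f' := fun t => deriv F (ζ + t * (z - ζ)) * (z - ζ))
      (B := fun t => ‖u ε‖ + B * ‖z - ζ‖ ^ (m + 1) * t ^ (m + 1) / (m + 1))
      (B' := fun t => B * ‖z - ζ‖ ^ (m + 1) * t ^ m)
      (fun t ht => (hder t (hε.trans_le ht.1) ht.2).continuousAt.continuousWithinAt)
      (fun t ht => (hder t (hε.trans_le ht.1) ht.2.le).hasDerivWithinAt)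
      (by
        have : 0 ≤ B * ‖z - ζ‖ ^ (m + 1) * ε ^ (m + 1) / (m + 1) := by positivity
        linarith)
      (by
        intro t
        have h1 : HasDerivAt (fun t : ℝ => t ^ (m + 1)) ((m + 1 : ℕ) * t ^ m) t := by
          simpa using hasDerivAt_pow (m + 1) t
        have h2 := ((h1.const_mul (B * ‖z - ζ‖ ^ (m + 1))).div_const ((m : ℝ) + 1)).const_add ‖u ε‖
        have h3 : B * ‖z - ζ‖ ^ (m + 1) * t ^ m =
            B * ‖z - ζ‖ ^ (m + 1) * (((m + 1 : ℕ) : ℝ) * t ^ m) / ((m : ℝ) + 1) := by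
          have : (m : ℝ) + 1 ≠ 0 := by positivity
          push_cast
          field_simp
        rw [h3]
        exact h2)
      (by
        intro t ht
        have ht0 : 0 < t := hε.trans_le ht.1
        rw [norm_mul]
        have h1 := hB _ (seg_mem hζ hz ht0 ht.2.le)
        have h2 : ‖ζ + t * (z - ζ) - ζ‖ = t * ‖z - ζ‖ := by
          rw [add_sub_cancel_left, norm_mul, Complex.norm_real, Real.norm_of_nonneg ht0.le]
        rw [h2] at h1
        calc ‖deriv F (ζ + t * (z - ζ))‖ * ‖z - ζ‖ ≤ B * (t * ‖z - ζ‖) ^ m * ‖z - ζ‖ :=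
              mul_le_mul_of_nonneg_right h1 (norm_nonneg _)
          _ = B * ‖z - ζ‖ ^ (m + 1) * t ^ m := by rw [mul_pow]; ring)
      (right_mem_Icc.2 hε1.le)
    simpa [hu] using this
  have hlim : Tendsto (fun ε : ℝ => ‖u ε‖ + B * ‖z - ζ‖ ^ (m + 1) / (m + 1)) (𝓝[>] 0)
      (𝓝 (0 + B * ‖z - ζ‖ ^ (m + 1) / (m + 1))) := by
    refine Tendsto.add_const _ ?_
    rw [tendsto_zero_iff_norm_tendsto_zero.symm]
    refine h0.comp ?_
    rw [tendsto_nhdsWithin_iff]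
    constructor
    · have h1 : Tendsto (fun t : ℝ => ζ + (t : ℂ) * (z - ζ)) (𝓝 0) (𝓝 (ζ + ((0 : ℝ) : ℂ) * (z - ζ))) :=
        (by fun_prop : Continuous fun t : ℝ => ζ + (t : ℂ) * (z - ζ)).tendsto 0
      simp only [Complex.ofReal_zero, zero_mul, add_zero] at h1
      exact h1.mono_left nhdsWithin_le_nhds
    · filter_upwards [Ioo_mem_nhdsGT (zero_lt_one (α := ℝ))] with t ht
      exact seg_mem hζ hz ht.1 ht.2.le
  rw [zero_add] at hlim
  refine ge_of_tendsto hlim ?_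
  filter_upwards [Ioo_mem_nhdsGT (zero_lt_one (α := ℝ))] with t ht
  exact key t ht.1 ht.2

lemma iter_diff {f : ℂ → ℂ} (hf : DifferentiableOn ℂ f (ball 0 1)) (n : ℕ) :
    DifferentiableOn ℂ (iteratedDeriv n f) (ball 0 1) := by
  induction n with
  | zero => simpa using hf
  | succ n ih =>
    rw [iteratedDeriv_succ]
    exact ih.deriv isOpen_ball

/-- All integrations. -/
lemma taylor {f : ℂ → ℂ} {ζ : ℂ} (hζ : ‖ζ‖ = 1) (hf : DifferentiableOn ℂ f (ball 0 1))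
    (h0 : ∀ n, Tendsto (iteratedDeriv n f) (𝓝[ball 0 1] ζ) (𝓝 0)) (n : ℕ) {A : ℝ}
    (hA : ∀ z ∈ ball (0 : ℂ) 1, ‖iteratedDeriv n f z‖ ≤ A) (k : ℕ) (hk : k ≤ n) :
    ∀ z ∈ ball (0 : ℂ) 1, ‖iteratedDeriv (n - k) f z‖ ≤ A * ‖z - ζ‖ ^ k / k.factorial := by
  induction k with
  | zero => intro z hz; simpa using hA z hz
  | succ k ih =>
    intro z hz
    have h1 : n - k = (n - (k + 1)) + 1 := by omega
    have h2 := step hζ (iter_diff hf (n - (k + 1))) (h0 (n - (k + 1)))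
      (B := A / k.factorial) (m := k) (by
        intro w hw
        have := ih (by omega) w hw
        rw [h1, iteratedDeriv_succ] at this
        rw [div_mul_eq_mul_div]
        exact this) z hz
    refine h2.trans (le_of_eq ?_)
    rw [Nat.factorial_succ]
    push_cast
    have : (k.factorial : ℝ) ≠ 0 := by positivity
    have : (k : ℝ) + 1 ≠ 0 := by positivity
    field_simp

/-- A function of the Gevrey class which is flat at the boundary point `ζ` is exponentially small. -/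
lemma small {α : ℝ} (hα : 0 < α) {f : ℂ → ℂ} {C : ℝ} (hC : 1 ≤ C)
    (hf : DifferentiableOn ℂ f (ball 0 1))
    (hb : ∀ n : ℕ, ∀ z ∈ ball (0 : ℂ) 1,
      ‖iteratedDeriv n f z‖ ≤ C ^ (n + 1) * (n.factorial : ℝ) ^ (1 + 1 / α)) {ζ : ℂ} (hζ : ‖ζ‖ = 1)
    (h0 : ∀ n, Tendsto (iteratedDeriv n f) (𝓝[ball 0 1] ζ) (𝓝 0)) {z : ℂ}
    (hz : z ∈ ball (0 : ℂ) 1) :
    ‖f z‖ ≤ Real.exp (1 + Real.log C - (Real.exp 1 * C * ‖z - ζ‖) ^ (-α)) := by
  have hC0 : 0 < C := by linarith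
  have hδ : 0 < ‖z - ζ‖ := by
    rw [norm_pos_iff, sub_ne_zero]
    rintro rfl
    rw [mem_ball_zero_iff, hζ] at hz
    exact lt_irrefl _ hz
  set δ := ‖z - ζ‖ with hδdef
  set x : ℝ := (Real.exp 1 * C * δ) ^ (-α) with hx
  have hx0 : 0 < x := by positivity
  set n : ℕ := ⌊x⌋₊ with hn
  have hnx : (n : ℝ) ≤ x := Nat.floor_le hx0.le
  have hxn : x < n + 1 := Nat.lt_floor_add_one x
  have h1 := taylor hζ hf h0 n (hb n) n le_rfl z hz
  rw [Nat.sub_self, iteratedDeriv_zero] at h1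
  have hfac : 0 < (n.factorial : ℝ) := by positivity
  have h2 : C ^ (n + 1) * (n.factorial : ℝ) ^ (1 + 1 / α) * ‖z - ζ‖ ^ n / n.factorial =
      C * (C ^ n * δ ^ n * (n.factorial : ℝ) ^ (1 / α)) := by
    rw [Real.rpow_add hfac, Real.rpow_one, ← hδdef]
    field_simp
    ring
  rw [h2] at h1
  -- `n! ≤ n ^ n`
  have h3 : (n.factorial : ℝ) ^ (1 / α) ≤ ((n : ℝ) ^ (1 / α)) ^ n := by
    have h4 : (n.factorial : ℝ) ≤ (n : ℝ) ^ n := by exact_mod_cast Nat.factorial_le_pow n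
    calc (n.factorial : ℝ) ^ (1 / α) ≤ ((n : ℝ) ^ n) ^ (1 / α) :=
          Real.rpow_le_rpow hfac.le h4 (by positivity)
      _ = ((n : ℝ) ^ (1 / α)) ^ n := by
          rw [← Real.rpow_natCast, ← Real.rpow_mul (Nat.cast_nonneg _), mul_comm,
            Real.rpow_mul (Nat.cast_nonneg _), Real.rpow_natCast]
  have h5 : (n : ℝ) ^ (1 / α) ≤ (Real.exp 1 * C * δ)⁻¹ := by
    calc (n : ℝ) ^ (1 / α) ≤ x ^ (1 / α) := Real.rpow_le_rpow (Nat.cast_nonneg _) hnx (by positivity)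
      _ = (Real.exp 1 * C * δ)⁻¹ := by
          rw [hx, ← Real.rpow_mul (by positivity)]
          have : -α * (1 / α) = -1 := by field_simp
          rw [this, Real.rpow_neg_one]
  have h6 : C ^ n * δ ^ n * (n.factorial : ℝ) ^ (1 / α) ≤ Real.exp (-n) := by
    calc C ^ n * δ ^ n * (n.factorial : ℝ) ^ (1 / α)
        ≤ C ^ n * δ ^ n * ((Real.exp 1 * C * δ)⁻¹) ^ n := by
          refine mul_le_mul_of_nonneg_left (h3.trans ?_) (by positivity)
          exact pow_le_pow_left₀ (by positivity) h5 n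
      _ = (Real.exp (-1)) ^ n := by
          rw [← mul_pow, ← mul_pow, Real.exp_neg]
          congr 1
          field_simp
      _ = Real.exp (-n) := by
          rw [← Real.exp_nat_mul]
          congr 1
          ring
  calc ‖f z‖ ≤ C * (C ^ n * δ ^ n * (n.factorial : ℝ) ^ (1 / α)) := h1
    _ ≤ C * Real.exp (-n) := mul_le_mul_of_nonneg_left h6 hC0.le
    _ = Real.exp (Real.log C) * Real.exp (-n) := by rw [Real.exp_log hC0]
    _ = Real.exp (Real.log C - n) := by rw [← Real.exp_add]; ring_nf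
    _ ≤ Real.exp (1 + Real.log C - x) := by
        apply Real.exp_le_exp.2
        linarith

end Pool.Agent.Helper1K1.PK
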