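import Pool.Agent.Helper1K1.PK.B1

/-!
# Zero sets of Gevrey classes: the integral of the distance
-/

set_option autoImplicit false

open Metric Filter Topology Set Real

namespace Pool.Agent.Helper1K1.PK

lemma jensen_low {f : ℂ → ℂ} (hf : DifferentiableOn ℂ f (ball 0 1)) :
    ∃ C0 : ℝ, ∀ R : ℝ, 1 / 2 ≤ R → R < 1 → -C0 ≤ circleAverage (fun z => Real.log ‖f z‖) 0 R := by
  have hmer : MeromorphicAt f 0 :=
    ((hf.analyticOnNhd isOpen_ball) 0 (by simp)).meromorphicAt
  refine ⟨(((meromorphicOrderAt f 0).untop₀ : ℤ) : ℝ) * Real.log 2 -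
    Real.log ‖meromorphicTrailingCoeffAt f 0‖, fun R hR hR1 => ?_⟩
  have hR0 : 0 < R := by linarith
  have habs : |R| = R := abs_of_pos hR0
  have hsub : closedBall (0 : ℂ) |R| ⊆ ball 0 1 := by
    rw [habs]
    exact closedBall_subset_ball hR1
  have han : AnalyticOnNhd ℂ f (closedBall 0 |R|) := (hf.analyticOnNhd isOpen_ball).mono hsub
  have h1 := MeromorphicOn.circleAverage_log_norm hR0.ne' han.meromorphicOn
  have h2 : circleAverage (fun z => Real.log ‖f z‖) 0 R = circleAverage (Real.log ‖f ·‖) 0 R := rfl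
  rw [h2, h1]
  have hord : ∀ u ∈ closedBall (0 : ℂ) |R|, 0 ≤ (meromorphicOrderAt f u).untop₀ := by
    intro u hu
    have := (han u hu).meromorphicOrderAt_nonneg
    exact WithTop.untop₀_nonneg.2 this
  have h3 : 0 ≤ ∑ᶠ u, (MeromorphicOn.divisor f (closedBall 0 |R|) u : ℝ) *
      Real.log (R * ‖(0 : ℂ) - u‖⁻¹) := by
    refine finsum_nonneg fun u => ?_
    by_cases hu : u ∈ closedBall (0 : ℂ) |R|
    · rw [MeromorphicOn.divisor_apply han.meromorphicOn hu]
      refine mul_nonneg (by exact_mod_cast hord u hu) ?_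
      by_cases hu0 : u = 0
      · simp [hu0]
      · apply Real.log_nonneg
        rw [zero_sub, norm_neg, ← div_eq_mul_inv, one_le_div (norm_pos_iff.2 hu0)]
        rw [habs, mem_closedBall_zero_iff] at hu
        exact hu
    · rw [Function.locallyFinsuppWithin.apply_eq_zero_of_notMem _ hu]
      simp
  have h4 : MeromorphicOn.divisor f (closedBall 0 |R|) 0 = (meromorphicOrderAt f 0).untop₀ :=
    MeromorphicOn.divisor_apply han.meromorphicOn (by simp)
  rw [h4]
  have h5 : -Real.log 2 ≤ Real.log R := by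
    rw [← Real.log_inv]
    exact Real.log_le_log (by norm_num) (by linarith)
  have h6 : (0 : ℝ) ≤ (((meromorphicOrderAt f 0).untop₀ : ℤ) : ℝ) := by
    exact_mod_cast hord 0 (by simp)
  nlinarith [mul_le_mul_of_nonneg_left h5 h6]

lemma circ_bound {α : ℝ} (hα : 0 < α) {E : Set ℂ} (hE : IsClosed E) (hEs : E ⊆ sphere 0 1)
    (hne : E.Nonempty) {f : ℂ → ℂ} (hG : GevreyClass α f) (hf0 : ∃ z ∈ ball (0 : ℂ) 1, f z ≠ 0)
    (h0 : ∀ n : ℕ, ∀ ζ ∈ E, Tendsto (iteratedDeriv n f) (𝓝[ball 0 1] ζ) (𝓝 0)) :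
    ∃ C1 : ℝ, ∀ R : ℝ, 1 / 2 ≤ R → R < 1 →
      ∫ θ in (0 : ℝ)..2 * π, (infDist (circleMap 0 R θ) E) ^ (-α) ≤ C1 := by
  obtain ⟨hf, C', hC'⟩ := hG
  obtain ⟨C0, hC0⟩ := jensen_low hf
  set C := max C' 1 with hCdef
  have hC : 1 ≤ C := le_max_right _ _
  have hb : ∀ n : ℕ, ∀ z ∈ ball (0 : ℂ) 1,
      ‖iteratedDeriv n f z‖ ≤ C ^ (n + 1) * (n.factorial : ℝ) ^ (1 + 1 / α) := by
    intro n z hz
    have h1 := hC' n z hz
    have hpos : 0 < (n.factorial : ℝ) ^ (1 + 1 / α) := by positivity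
    refine h1.trans (mul_le_mul_of_nonneg_right ?_ hpos.le)
    have h2 : 0 ≤ C' := by
      have h3 := (norm_nonneg _).trans (hC' 0 z hz)
      simpa using h3
    exact pow_le_pow_left₀ h2 (le_max_left _ _) _
  have hκ : 0 < (Real.exp 1 * C) ^ (-α) := by positivity
  set κ := (Real.exp 1 * C) ^ (-α) with hκdef
  set A := 1 + Real.log C with hA
  have hcomp : IsCompact E := (isCompact_sphere (0 : ℂ) 1).of_isClosed_subset hE hEs
  set b : ℂ → ℝ := fun z => A - κ * (infDist z E) ^ (-α) with hbdef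
  have hle : ∀ z ∈ ball (0 : ℂ) 1, f z ≠ 0 → Real.log ‖f z‖ ≤ b z := by
    intro z hz hfz
    obtain ⟨ζ, hζE, hζ⟩ := hcomp.exists_infDist_eq_dist hne z
    have hζ1 : ‖ζ‖ = 1 := by simpa using hEs hζE
    have h1 := small hα hC hf hb hζ1 (fun n => h0 n ζ hζE) hz
    have h2 := Real.log_le_log (norm_pos_iff.2 hfz) h1
    rw [Real.log_exp] at h2
    rw [hbdef]
    simp only
    rw [hζ, dist_eq_norm, hκdef, ← Real.mul_rpow (by positivity) (norm_nonneg _)]
    exact h2
  refine ⟨2 * π * ((A + C0) / κ), fun R hR hR1 => ?_⟩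
  have hR0 : 0 < R := by linarith
  have habs : |R| = R := abs_of_pos hR0
  have hsph : sphere (0 : ℂ) |R| ⊆ ball 0 1 := by
    rw [habs]
    exact sphere_subset_closedBall.trans (closedBall_subset_ball hR1)
  have hpos : ∀ z ∈ sphere (0 : ℂ) |R|, 0 < infDist z E := by
    intro z hz
    obtain ⟨ζ, hζE, hζ⟩ := hcomp.exists_infDist_eq_dist hne z
    rw [hζ, dist_pos]
    rintro rfl
    have h1 : ‖z‖ = 1 := by simpa using hEs hζE
    have h2 := hsph hz
    rw [mem_ball_zero_iff, h1] at h2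
    exact lt_irrefl _ h2
  have hcontD : ContinuousOn (fun z => (infDist z E) ^ (-α)) (sphere (0 : ℂ) |R|) :=
    ContinuousOn.rpow_const (continuous_infDist_pt E).continuousOn
      fun z hz => Or.inl (hpos z hz).ne'
  have hintD : CircleIntegrable (fun z => (infDist z E) ^ (-α)) 0 R :=
    ContinuousOn.circleIntegrable' hcontD
  have hintb : CircleIntegrable b 0 R :=
    ContinuousOn.circleIntegrable' (continuousOn_const.sub (continuousOn_const.mul hcontD))
  set G : ℂ → ℝ := fun z => if f z = 0 then b z else Real.log ‖f z‖ with hGdef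
  obtain ⟨z0, hz0, hfz0⟩ := hf0
  have hcod : (fun z => Real.log ‖f z‖) =ᶠ[codiscreteWithin (sphere (0 : ℂ) |R|)] G := by
    have h1 := (hf.analyticOnNhd isOpen_ball).preimage_zero_mem_codiscreteWithin hfz0 hz0
      ((convex_ball (0 : ℂ) 1).isConnected ⟨0, by simp⟩)
    have h2 := codiscreteWithin_mono hsph h1
    filter_upwards [h2] with z hz
    have hz' : f z ≠ 0 := by simpa using hz
    rw [hGdef]
    simp only [hz', if_false]
  have hlogint : CircleIntegrable (fun z => Real.log ‖f z‖) 0 R := by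
    refine MeromorphicOn.circleIntegrable_log_norm ?_
    exact (((hf.analyticOnNhd isOpen_ball).mono hsph).meromorphicOn)
  have hGint : CircleIntegrable G 0 R := (circleIntegrable_congr_codiscreteWithin hcod).1 hlogint
  have h1 : -C0 ≤ circleAverage b 0 R := by
    refine (hC0 R hR hR1).trans ?_
    rw [circleAverage_congr_codiscreteWithin hcod hR0.ne']
    refine circleAverage_mono hGint hintb fun z hz => ?_
    rw [hGdef]
    simp only
    split_ifs with h
    · exact le_rfl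
    · exact hle z (hsph hz) h
  have h2 : circleAverage b 0 R = A - κ * circleAverage (fun z => (infDist z E) ^ (-α)) 0 R := by
    have e : b = (fun _ => A) - κ • (fun z => (infDist z E) ^ (-α)) := by
      funext z
      simp [hbdef]
    rw [e, circleAverage_sub (circleIntegrable_const A 0 R) (hintD.const_smul), circleAverage_const,
      circleAverage_smul]
    simp
  rw [h2] at h1
  have h3 : circleAverage (fun z => (infDist z E) ^ (-α)) 0 R ≤ (A + C0) / κ := by
    rw [le_div_iff₀ hκ]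
    linarith
  rw [circleAverage_def, smul_eq_mul] at h3
  have h4 : 0 < 2 * π := by positivity
  rw [inv_mul_le_iff₀ h4] at h3
  exact h3

/-- The integral of `dist(·, E)^(-α)` over the circle diverges, expressed by finite families of
disjoint arcs. -/
def Diverges (α : ℝ) (E : Set ℂ) : Prop :=
  ∀ K : ℝ, ∃ (s : Finset ℕ) (a b d : ℕ → ℝ),
    (∀ n ∈ s, 0 ≤ a n ∧ a n ≤ b n ∧ b n ≤ 2 * π ∧ 0 < d n) ∧
    ((s : Set ℕ).Pairwise fun m n => Disjoint (Ioc (a m) (b m)) (Ioc (a n) (b n))) ∧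
    (∀ n ∈ s, ∀ θ ∈ Ioc (a n) (b n), infDist (circleMap 0 1 θ) E ≤ d n) ∧
    K ≤ ∑ n ∈ s, (b n - a n) * (d n) ^ (-α)

theorem not_zero {α : ℝ} (hα : 0 < α) {E : Set ℂ} (hne : E.Nonempty) (hdiv : Diverges α E) :
    ¬ IsGevreyZeroSet α E := by
  rintro ⟨hE, hEs, f, hG, hf0, h0⟩
  obtain ⟨C1, hC1⟩ := circ_bound hα hE hEs hne hG hf0 h0
  obtain ⟨s, a, b, d, h1, h2, h3, h4⟩ := hdiv ((C1 + 1) * 2 ^ α)
  have hcomp : IsCompact E := (isCompact_sphere (0 : ℂ) 1).of_isClosed_subset hE hEs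
  -- the radius
  obtain ⟨η, hη0, hη1, hη⟩ : ∃ η : ℝ, 0 < η ∧ η ≤ 1 / 2 ∧ ∀ n ∈ s, η ≤ d n := by
    classical
    rcases s.eq_empty_or_nonempty with rfl | hs
    · exact ⟨1 / 2, by norm_num, le_rfl, by simp⟩
    · refine ⟨min (1 / 2) (s.inf' hs d), ?_, min_le_left _ _, fun n hn =>
        (min_le_right _ _).trans (Finset.inf'_le _ hn)⟩
      exact lt_min (by norm_num) ((Finset.lt_inf'_iff hs).2 fun n hn => (h1 n hn).2.2.2)
  set R : ℝ := 1 - η with hR
  have hR12 : 1 / 2 ≤ R := by linarith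
  have hR1 : R < 1 := by linarith
  have hR0 : 0 < R := by linarith
  have hbound := hC1 R hR12 hR1
  set F : ℝ → ℝ := fun θ => (infDist (circleMap 0 R θ) E) ^ (-α) with hF
  have hpos : ∀ θ, 0 < infDist (circleMap 0 R θ) E := by
    intro θ
    obtain ⟨ζ, hζE, hζ⟩ := hcomp.exists_infDist_eq_dist hne (circleMap 0 R θ)
    rw [hζ, dist_pos]
    rintro h
    have h5 : ‖ζ‖ = 1 := by simpa using hEs hζE
    rw [← h, norm_circleMap_zero, abs_of_pos hR0] at h5
    linarith
  have hcont : Continuous F := by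
    refine Continuous.rpow_const ?_ fun θ => Or.inl (hpos θ).ne'
    exact (continuous_infDist_pt E).comp (continuous_circleMap 0 R)
  have hF0 : ∀ θ, 0 ≤ F θ := fun θ => Real.rpow_nonneg (hpos θ).le _
  have hlow : ∀ n ∈ s, ∀ θ ∈ Ioc (a n) (b n), (2 * d n) ^ (-α) ≤ F θ := by
    intro n hn θ hθ
    have hd := (h1 n hn).2.2.2
    have h5 : infDist (circleMap 0 R θ) E ≤ 2 * d n := by
      have h6 := infDist_le_infDist_add_dist (s := E) (x := circleMap 0 R θ) (y := circleMap 0 1 θ)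
      have h7 : dist (circleMap 0 R θ) (circleMap 0 1 θ) = η := by
        rw [dist_eq_norm, circleMap_zero, circleMap_zero, ← sub_mul, norm_mul,
          Complex.norm_exp_ofReal_mul_I, mul_one, ← Complex.ofReal_sub, Complex.norm_real, hR]
        rw [sub_sub_cancel_left, norm_neg, Real.norm_of_nonneg hη0.le]
      have h8 := h3 n hn θ hθ
      have h9 := hη n hn
      rw [h7] at h6
      linarith
    exact Real.rpow_le_rpow_of_nonpos (hpos θ) h5 (by linarith)
  have hint : MeasureTheory.IntegrableOn F (Ioc 0 (2 * π)) := hcont.integrableOn_Ioc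
  have hsub : (⋃ n ∈ s, Ioc (a n) (b n)) ⊆ Ioc 0 (2 * π) := by
    intro θ hθ
    simp only [mem_iUnion] at hθ
    obtain ⟨n, hn, hθ⟩ := hθ
    obtain ⟨g1, g2, g3, g4⟩ := h1 n hn
    exact ⟨g1.trans_lt hθ.1, hθ.2.trans g3⟩
  have h5 : ∑ n ∈ s, (b n - a n) * (2 * d n) ^ (-α) ≤ ∫ θ in (0 : ℝ)..2 * π, F θ := by
    calc ∑ n ∈ s, (b n - a n) * (2 * d n) ^ (-α) ≤ ∑ n ∈ s, ∫ θ in Ioc (a n) (b n), F θ := by
          refine Finset.sum_le_sum fun n hn => ?_
          have g : ∫ θ in Ioc (a n) (b n), (2 * d n) ^ (-α) = (b n - a n) * (2 * d n) ^ (-α) := by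
            rw [MeasureTheory.setIntegral_const, smul_eq_mul, MeasureTheory.measureReal_def,
              Real.volume_Ioc, ENNReal.toReal_ofReal (by linarith [(h1 n hn).2.1])]
          rw [← g]
          refine MeasureTheory.setIntegral_mono_on ?_ hcont.integrableOn_Ioc measurableSet_Ioc
            fun θ hθ => hlow n hn θ hθ
          exact MeasureTheory.integrableOn_const (by simp)
      _ = ∫ θ in ⋃ n ∈ s, Ioc (a n) (b n), F θ := by
          rw [MeasureTheory.integral_biUnion_finset s (fun n _ => measurableSet_Ioc) h2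
            (fun n _ => hcont.integrableOn_Ioc)]
      _ ≤ ∫ θ in Ioc 0 (2 * π), F θ :=
          MeasureTheory.setIntegral_mono_set hint
            (Filter.Eventually.of_forall hF0) (Filter.Eventually.of_forall hsub)
      _ = ∫ θ in (0 : ℝ)..2 * π, F θ := by
          rw [intervalIntegral.integral_of_le (by positivity)]
  have h6 : ∑ n ∈ s, (b n - a n) * (2 * d n) ^ (-α) =
      2 ^ (-α) * ∑ n ∈ s, (b n - a n) * (d n) ^ (-α) := by
    rw [Finset.mul_sum]
    refine Finset.sum_congr rfl fun n hn => ?_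
    rw [Real.mul_rpow (by norm_num) (h1 n hn).2.2.2.le]
    ring
  rw [h6] at h5
  have h7 : (2 : ℝ) ^ (-α) * ((C1 + 1) * 2 ^ α) = C1 + 1 := by
    rw [Real.rpow_neg (by norm_num)]
    have : (2 : ℝ) ^ α ≠ 0 := by positivity
    field_simp
  have h8 := mul_le_mul_of_nonneg_left h4 (by positivity : (0 : ℝ) ≤ 2 ^ (-α))
  linarith

end Pool.Agent.Helper1K1.PK
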