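import Mathlib

/-!
# Peak sets for analytic Lipschitz classes and zero sets of Gevrey classes: definitions
-/

set_option autoImplicit false

open Metric Filter Topology

namespace Pool.Agent.Helper1K1.PK

/-- The class `A_α`: the function `f` is analytic in the open unit disc, continuous on the closed unit
disc, and satisfies a Lipschitz condition of order `α` on the unit circle. -/
structure LipClass (α : ℝ) (f : ℂ → ℂ) : Prop where
  analytic : DifferentiableOn ℂ f (ball 0 1)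
  continuous : ContinuousOn f (closedBall 0 1)
  lipschitz : ∃ C : ℝ, ∀ z w : ℂ, ‖z‖ = 1 → ‖w‖ = 1 → ‖f z - f w‖ ≤ C * ‖z - w‖ ^ α

/-- `E ∈ 𝒫_α`: the closed subset `E` of the unit circle is a peak set for `A_α`. -/
def IsPeakSet (α : ℝ) (E : Set ℂ) : Prop :=
  IsClosed E ∧ E ⊆ sphere 0 1 ∧ ∃ f : ℂ → ℂ, LipClass α f ∧ (∀ z ∈ E, f z = 1) ∧
    ∀ z : ℂ, ‖z‖ = 1 → z ∉ E → ‖f z‖ < 1

/-- The Gevrey class `G_α`: the function `f` is analytic in the open unit disc, and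
`|f^(n)(z)| ≤ C ^ (n + 1) (n!) ^ (1 + 1 / α)` there, for all `n`. -/
def GevreyClass (α : ℝ) (f : ℂ → ℂ) : Prop :=
  DifferentiableOn ℂ f (ball 0 1) ∧ ∃ C : ℝ, ∀ n : ℕ, ∀ z ∈ ball (0 : ℂ) 1,
    ‖iteratedDeriv n f z‖ ≤ C ^ (n + 1) * (n.factorial : ℝ) ^ (1 + 1 / α)

/-- `E ∈ Z(G_α)`: there is a function `f ∈ G_α`, not identically zero in the disc, all derivatives of
which vanish on the closed subset `E` of the unit circle (the value of the continuous extension of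
`f^(n)` at a point of the circle is the limit of `f^(n)` there). -/
def IsGevreyZeroSet (α : ℝ) (E : Set ℂ) : Prop :=
  IsClosed E ∧ E ⊆ sphere 0 1 ∧ ∃ f : ℂ → ℂ, GevreyClass α f ∧ (∃ z ∈ ball (0 : ℂ) 1, f z ≠ 0) ∧
    ∀ n : ℕ, ∀ ζ ∈ E, Tendsto (iteratedDeriv n f) (𝓝[ball 0 1] ζ) (𝓝 0)

end Pool.Agent.Helper1K1.PK
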